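import Pool.Agent.Q71.SE.Defs

namespace Q71.SE

open MeasureTheory Filter Topology Set
open scoped ENNReal

variable {G X : Type*} [Group G] [MulAction G X] [MeasurableSpace X]

/-- the truncated semimetric -/
noncomputable def R (ρ : X → X → ℝ) (x y : X) : ℝ≥0∞ := ENNReal.ofReal (min (ρ x y) 1)

/-- the induced right-invariant pseudometric on the group -/
noncomputable def D (μ : Measure X) (ρ : X → X → ℝ) (g h : G) : ℝ≥0∞ :=
  ∫⁻ x, R ρ (g • x) (h • x) ∂μ

omit [Group G] [MulAction G X] in
theorem R_symm {ρ : X → X → ℝ} (hρ : IsSemimetric ρ) (x y : X) : R ρ x y = R ρ y x := by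
  unfold R; rw [hρ.symm]

omit [MeasurableSpace X] in
theorem R_le_one (ρ : X → X → ℝ) (x y : X) : R ρ x y ≤ 1 := by
  unfold R
  exact ENNReal.ofReal_le_one.2 (min_le_right _ _)

omit [MeasurableSpace X] in
theorem R_le (ρ : X → X → ℝ) (x y : X) : R ρ x y ≤ ENNReal.ofReal (ρ x y) := by
  unfold R
  exact ENNReal.ofReal_le_ofReal (min_le_left _ _)

theorem R_triangle {ρ : X → X → ℝ} (hρ : IsSemimetric ρ) (x y z : X) :
    R ρ x z ≤ R ρ x y + R ρ y z := by
  unfold R
  rw [← ENNReal.ofReal_add (le_min (hρ.nonneg _ _) zero_le_one)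
    (le_min (hρ.nonneg _ _) zero_le_one)]
  apply ENNReal.ofReal_le_ofReal
  have h1 := hρ.triangle x y z
  have h2 := hρ.nonneg x y
  have h3 := hρ.nonneg y z
  rcases le_total (ρ x y) 1 with h4 | h4 <;> rcases le_total (ρ y z) 1 with h5 | h5
  · rw [min_eq_left h4, min_eq_left h5]; exact (min_le_left _ _).trans h1
  · rw [min_eq_left h4, min_eq_right h5]
    exact (min_le_right _ _).trans (by linarith)
  · rw [min_eq_right h4, min_eq_left h5]
    exact (min_le_right _ _).trans (by linarith)
  · rw [min_eq_right h4, min_eq_right h5]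
    exact (min_le_right _ _).trans (by linarith)

theorem measurable_R {ρ : X → X → ℝ} (hρ : IsSemimetric ρ) {Y : Type*} [MeasurableSpace Y]
    {f g : Y → X} (hf : Measurable f) (hg : Measurable g) :
    Measurable fun y => R ρ (f y) (g y) := by
  unfold R
  apply ENNReal.measurable_ofReal.comp
  exact (hρ.meas.comp (hf.prodMk hg)).min measurable_const

theorem D_symm {μ : Measure X} {ρ : X → X → ℝ} (hρ : IsSemimetric ρ) (g h : G) :
    D μ ρ g h = D μ ρ h g := by
  unfold D; simp_rw [R_symm hρ]

section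

variable [MeasurableConstSMul G X]

theorem D_triangle {μ : Measure X} {ρ : X → X → ℝ} (hρ : IsSemimetric ρ) (g h k : G) :
    D μ ρ g k ≤ D μ ρ g h + D μ ρ h k := by
  unfold D
  rw [← lintegral_add_left (measurable_R hρ (measurable_const_smul g) (measurable_const_smul h))]
  exact lintegral_mono fun x => R_triangle hρ _ _ _

theorem D_right {μ : Measure X} [SMulInvariantMeasure G X μ] {ρ : X → X → ℝ}
    (hρ : IsSemimetric ρ) (g h k : G) : D μ ρ (g * k) (h * k) = D μ ρ g h := by
  unfold D
  have h1 := (measurePreserving_smul k μ).lintegral_comp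
    (measurable_R hρ (measurable_const_smul g) (measurable_const_smul h))
  rw [← h1]
  simp_rw [mul_smul]

/-- **The class lemma.** -/
theorem exists_classes (μ : Measure X) [IsProbabilityMeasure μ] [SMulInvariantMeasure G X μ]
    {ρ : X → X → ℝ} (hρ : IsSemimetric ρ) (F : Finset G) {δ : ℝ} {K L : ℕ}
    (hK : HasCover μ (avg F ρ) δ K) (hL : HasCover μ ρ δ L) :
    ∃ (c : G → Fin K → Option (Fin L)) (w : G → ℝ≥0∞),
      ∑ g ∈ F, w g ≤ 2 * ENNReal.ofReal δ * F.card ∧
      ∀ g h, c g = c h → D μ ρ g h ≤ 2 * ENNReal.ofReal δ + w g + w h := by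
  classical
  obtain ⟨Z, C, hZ, hC, huniv, hμZ, hdiam⟩ := hK
  obtain ⟨Y0, Y, hY0, hY, hYuniv, hμY0, hYdiam⟩ := hL
  set C' : Fin K → Set X := fun i => C i \ ⋃ j : {j : Fin K // j < i}, C j with hC'
  have hC'm : ∀ i, MeasurableSet (C' i) := fun i =>
    (hC i).diff (MeasurableSet.iUnion fun j => hC _)
  have hC'sub : ∀ i, C' i ⊆ C i := fun i => sdiff_subset
  have hdisj : Pairwise (Function.onFun Disjoint C') := by
    have h1 : ∀ i j : Fin K, i < j → Disjoint (C' i) (C' j) := by
      intro i j hij
      rw [Set.disjoint_left]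
      intro x hx hx'
      exact hx'.2 (mem_iUnion.2 ⟨⟨i, hij⟩, hx.1⟩)
    intro i j hij
    rcases lt_or_gt_of_ne hij with h | h
    · exact h1 i j h
    · exact (h1 j i h).symm
  have hun' : (Z ∪ ⋃ i, C' i) = univ := by
    rw [eq_univ_iff_forall]
    intro x
    have hx : x ∈ Z ∪ ⋃ i, C i := by rw [huniv]; trivial
    rcases hx with hx | hx
    · exact Or.inl hx
    · right
      have h1 : (Finset.univ.filter fun i => x ∈ C i).Nonempty := by
        obtain ⟨i, hi⟩ := mem_iUnion.1 hx
        exact ⟨i, by simpa using hi⟩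
      refine mem_iUnion.2 ⟨(Finset.univ.filter fun i => x ∈ C i).min' h1, ?_, ?_⟩
      · have := Finset.min'_mem _ h1
        exact (Finset.mem_filter.1 this).2
      · intro h2
        obtain ⟨⟨j, hj⟩, hj2⟩ := mem_iUnion.1 h2
        have := Finset.min'_le (Finset.univ.filter fun i => x ∈ C i) j (by simpa using hj2)
        exact absurd hj (not_lt.2 this)
  have hsum : ∑ i, μ (C' i) ≤ 1 := by
    have h1 : μ (⋃ i, C' i) = ∑' i, μ (C' i) := measure_iUnion hdisj hC'm
    rw [tsum_fintype] at h1
    rw [← h1]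
    exact prob_le_one
  -- indicator
  set I : X → ℝ≥0∞ := Y0.indicator 1 with hI
  have hIm : Measurable I := measurable_one.indicator hY0
  -- choose points
  obtain ⟨x₀⟩ : Nonempty X := nonempty_of_isProbabilityMeasure μ
  have hpts : ∀ i, ∃ x : X, (μ (C' i) ≠ 0 → x ∈ C' i) ∧
      μ (C' i) * ∑ g ∈ F, I (g • x) ≤ ∫⁻ y in C' i, ∑ g ∈ F, I (g • y) ∂μ := by
    intro i
    by_cases h0 : μ (C' i) = 0
    · exact ⟨x₀, fun h => absurd h0 h, by rw [h0, zero_mul]; exact zero_le⟩
    · have hm : Measurable fun y : X => ∑ g ∈ F, I (g • y) :=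
        Finset.measurable_sum _ fun g _ => hIm.comp (measurable_const_smul g)
      obtain ⟨x, hx, hx2⟩ := exists_le_setLAverage h0 (measure_ne_top μ _) hm.aemeasurable
      refine ⟨x, fun _ => hx, ?_⟩
      rw [setLAverage_eq] at hx2
      rw [mul_comm]
      exact (ENNReal.le_div_iff_mul_le (Or.inl h0) (Or.inl (measure_ne_top μ _))).1 hx2
  choose p hp hp2 using hpts
  set u : G → ℝ≥0∞ := fun g => ∑ i, ∫⁻ y in C' i, R ρ (g • y) (g • p i) ∂μ with hu
  set v : G → ℝ≥0∞ := fun g => ∑ i, μ (C' i) * I (g • p i) with hv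
  have hδsum : ∑ i : Fin K, ENNReal.ofReal δ * μ (C' i) ≤ ENNReal.ofReal δ := by
    rw [← Finset.mul_sum]
    calc ENNReal.ofReal δ * ∑ i, μ (C' i) ≤ ENNReal.ofReal δ * 1 := by gcongr
      _ = _ := mul_one _
  -- bound for the sum of u
  have husum : ∑ g ∈ F, u g ≤ ENNReal.ofReal δ * F.card := by
    simp only [hu]
    rw [Finset.sum_comm]
    have h1 : ∀ i ∈ Finset.univ, ∑ g ∈ F, ∫⁻ y in C' i, R ρ (g • y) (g • p i) ∂μ ≤
        ENNReal.ofReal δ * μ (C' i) * F.card := by
      intro i _
      by_cases h0 : μ (C' i) = 0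
      · have : ∀ g ∈ F, ∫⁻ y in C' i, R ρ (g • y) (g • p i) ∂μ = 0 := by
          intro g _
          rw [Measure.restrict_eq_zero.2 h0]
          simp
        rw [Finset.sum_eq_zero this]; exact zero_le
      · have hpi := hp i h0
        rw [← lintegral_finsetSum _ fun g _ =>
          measurable_R hρ (measurable_const_smul g) measurable_const]
        have h2 : ∀ y ∈ C' i, ∑ g ∈ F, R ρ (g • y) (g • p i) ≤ ENNReal.ofReal δ * F.card := by
          intro y hy
          have h3 : ∑ g ∈ F, R ρ (g • y) (g • p i) ≤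
              ENNReal.ofReal (avg F ρ y (p i)) * F.card := by
            rcases Finset.eq_empty_or_nonempty F with rfl | hF
            · simp
            have hcard : (0 : ℝ) < F.card := by exact_mod_cast hF.card_pos
            calc ∑ g ∈ F, R ρ (g • y) (g • p i) ≤
                ∑ g ∈ F, ENNReal.ofReal (ρ (g • y) (g • p i)) :=
                  Finset.sum_le_sum fun g _ => R_le _ _ _
              _ = ENNReal.ofReal (∑ g ∈ F, ρ (g • y) (g • p i)) :=
                  (ENNReal.ofReal_sum_of_nonneg fun g _ => hρ.nonneg _ _).symm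
              _ = ENNReal.ofReal (avg F ρ y (p i)) * F.card := by
                  rw [← ENNReal.ofReal_natCast, ← ENNReal.ofReal_mul]
                  · congr 1
                    unfold avg
                    field_simp
                  · unfold avg
                    exact div_nonneg (Finset.sum_nonneg fun g _ => hρ.nonneg _ _) hcard.le
          refine h3.trans ?_
          gcongr
          have h4 : ENNReal.ofReal (avg F ρ y (p i)) ≤ diamOf (avg F ρ) (C i) := by
            unfold diamOf
            exact (le_iSup₂_of_le (p i) (hC'sub i hpi) le_rfl).trans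
              (le_iSup₂_of_le (f := fun x _ => ⨆ y ∈ C i, ENNReal.ofReal (avg F ρ x y)) y
                (hC'sub i hy) le_rfl)
          exact (ENNReal.ofReal_le_ofReal_iff' ).1 (h4.trans (hdiam i).le) |>.elim id
            (fun h => h.trans (by
              have := (hdiam i)
              by_contra hcon
              rw [ENNReal.ofReal_of_nonpos (not_le.1 hcon).le] at this
              exact absurd this not_lt_zero))
        calc ∫⁻ y in C' i, ∑ g ∈ F, R ρ (g • y) (g • p i) ∂μ ≤
            ∫⁻ y in C' i, ENNReal.ofReal δ * F.card ∂μ :=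
              setLIntegral_mono' (hC'm i) h2
          _ = ENNReal.ofReal δ * μ (C' i) * F.card := by
              rw [setLIntegral_const]; ring
    calc _ ≤ ∑ i : Fin K, ENNReal.ofReal δ * μ (C' i) * F.card := Finset.sum_le_sum h1
      _ = (∑ i : Fin K, ENNReal.ofReal δ * μ (C' i)) * F.card := by rw [Finset.sum_mul]
      _ ≤ _ := by gcongr
  -- bound for the sum of v
  have hvsum : ∑ g ∈ F, v g ≤ ENNReal.ofReal δ * F.card := by
    simp only [hv]
    rw [Finset.sum_comm]
    have h1 : ∀ i ∈ Finset.univ, ∑ g ∈ F, μ (C' i) * I (g • p i) ≤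
        ∫⁻ y in C' i, ∑ g ∈ F, I (g • y) ∂μ := by
      intro i _
      rw [← Finset.mul_sum]
      exact hp2 i
    have hm : Measurable fun y : X => ∑ g ∈ F, I (g • y) :=
        Finset.measurable_sum _ fun g _ => hIm.comp (measurable_const_smul g)
    calc _ ≤ ∑ i : Fin K, ∫⁻ y in C' i, ∑ g ∈ F, I (g • y) ∂μ := Finset.sum_le_sum h1
      _ = ∫⁻ y in ⋃ i, C' i, ∑ g ∈ F, I (g • y) ∂μ := by
          rw [lintegral_iUnion hC'm hdisj, tsum_fintype]
      _ ≤ ∫⁻ y, ∑ g ∈ F, I (g • y) ∂μ := setLIntegral_le_lintegral _ _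
      _ = ∑ g ∈ F, ∫⁻ y, I (g • y) ∂μ :=
          lintegral_finsetSum _ fun g _ => hIm.comp (measurable_const_smul g)
      _ = ∑ g ∈ F, μ Y0 := by
          refine Finset.sum_congr rfl fun g _ => ?_
          rw [(measurePreserving_smul g μ).lintegral_comp hIm, hI, lintegral_indicator_one hY0]
      _ = μ Y0 * F.card := by rw [Finset.sum_const, nsmul_eq_mul, mul_comm]
      _ ≤ _ := by gcongr
  refine ⟨fun g i => if h : ∃ j, g • p i ∈ Y j then some h.choose else none,
    fun g => u g + v g, ?_, ?_⟩
  · rw [Finset.sum_add_distrib]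
    calc _ ≤ ENNReal.ofReal δ * F.card + ENNReal.ofReal δ * F.card := add_le_add husum hvsum
      _ = _ := by ring
  · intro g h hgh
    -- pointwise comparison at the points p i
    have hpt : ∀ i, R ρ (g • p i) (h • p i) ≤ ENNReal.ofReal δ + I (g • p i) := by
      intro i
      have hi := congrFun hgh i
      simp only at hi
      by_cases h1 : ∃ j, g • p i ∈ Y j
      · by_cases h2 : ∃ j, h • p i ∈ Y j
        · rw [dif_pos h1, dif_pos h2] at hi
          have h3 := Option.some.inj hi
          have h4 := h1.choose_spec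
          have h5 := h2.choose_spec
          rw [← h3] at h5
          refine ((R_le _ _ _).trans ?_).trans le_self_add
          refine le_trans ?_ (hYdiam h1.choose).le
          unfold diamOf
          exact (le_iSup₂_of_le (h • p i) h5 le_rfl).trans
              (le_iSup₂_of_le (f := fun x _ => ⨆ y ∈ Y h1.choose, ENNReal.ofReal (ρ x y))
                (g • p i) h4 le_rfl)
        · rw [dif_pos h1, dif_neg h2] at hi
          exact absurd hi (by simp)
      · have h2 : g • p i ∈ Y0 := by
          have h3 : g • p i ∈ Y0 ∪ ⋃ j, Y j := by rw [hYuniv]; trivial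
          rcases h3 with h3 | h3
          · exact h3
          · exact absurd (mem_iUnion.1 h3) h1
        have h3 : I (g • p i) = 1 := by rw [hI, indicator_of_mem h2]; rfl
        rw [h3]
        exact (R_le_one _ _ _).trans le_add_self
    have hmR := measurable_R hρ (measurable_const_smul (α := X) g) (measurable_const_smul h)
    have h1 : D μ ρ g h ≤ μ Z + ∑ i, ∫⁻ y in C' i, R ρ (g • y) (h • y) ∂μ := by
      unfold D
      calc ∫⁻ y, R ρ (g • y) (h • y) ∂μ = ∫⁻ y in Z ∪ ⋃ i, C' i, R ρ (g • y) (h • y) ∂μ := by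
            rw [hun', Measure.restrict_univ]
        _ ≤ ∫⁻ y in Z, R ρ (g • y) (h • y) ∂μ + ∫⁻ y in ⋃ i, C' i, R ρ (g • y) (h • y) ∂μ :=
            lintegral_union_le _ _ _
        _ ≤ μ Z + ∑ i, ∫⁻ y in C' i, R ρ (g • y) (h • y) ∂μ := by
            rw [lintegral_iUnion hC'm hdisj, tsum_fintype]
            gcongr
            calc ∫⁻ y in Z, R ρ (g • y) (h • y) ∂μ ≤ ∫⁻ y in Z, 1 ∂μ :=
                  lintegral_mono fun y => R_le_one _ _ _
              _ = μ Z := by simp
    have h2 : ∀ i, ∫⁻ y in C' i, R ρ (g • y) (h • y) ∂μ ≤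
        ∫⁻ y in C' i, R ρ (g • y) (g • p i) ∂μ + (ENNReal.ofReal δ * μ (C' i) +
          μ (C' i) * I (g • p i)) + ∫⁻ y in C' i, R ρ (h • y) (h • p i) ∂μ := by
      intro i
      have hm1 : Measurable fun y => R ρ (g • y) (g • p i) :=
        measurable_R hρ (measurable_const_smul g) measurable_const
      have hm2 : Measurable fun y => R ρ (g • y) (g • p i) + (ENNReal.ofReal δ + I (g • p i)) :=
        hm1.add measurable_const
      calc ∫⁻ y in C' i, R ρ (g • y) (h • y) ∂μ ≤
          ∫⁻ y in C' i, (R ρ (g • y) (g • p i) + (ENNReal.ofReal δ + I (g • p i)) +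
            R ρ (h • y) (h • p i)) ∂μ := by
            apply lintegral_mono
            intro y
            calc R ρ (g • y) (h • y) ≤ R ρ (g • y) (g • p i) + R ρ (g • p i) (h • y) :=
                  R_triangle hρ _ _ _
              _ ≤ R ρ (g • y) (g • p i) + (R ρ (g • p i) (h • p i) + R ρ (h • p i) (h • y)) := by
                  gcongr; exact R_triangle hρ _ _ _
              _ ≤ R ρ (g • y) (g • p i) + ((ENNReal.ofReal δ + I (g • p i)) +
                    R ρ (h • y) (h • p i)) := by
                  gcongr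
                  · exact hpt i
                  · rw [R_symm hρ]
              _ = _ := (add_assoc _ _ _).symm
        _ = _ := by
            rw [lintegral_add_left hm2, lintegral_add_left hm1,
              setLIntegral_const]
            ring
    calc D μ ρ g h ≤ μ Z + ∑ i, ∫⁻ y in C' i, R ρ (g • y) (h • y) ∂μ := h1
      _ ≤ ENNReal.ofReal δ + ∑ i, (∫⁻ y in C' i, R ρ (g • y) (g • p i) ∂μ +
          (ENNReal.ofReal δ * μ (C' i) + μ (C' i) * I (g • p i)) +
          ∫⁻ y in C' i, R ρ (h • y) (h • p i) ∂μ) := by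
          gcongr with i
          exact h2 i
      _ = ENNReal.ofReal δ + (u g + (∑ i : Fin K, ENNReal.ofReal δ * μ (C' i) + v g) + u h) := by
          rw [Finset.sum_add_distrib, Finset.sum_add_distrib, Finset.sum_add_distrib]
      _ ≤ ENNReal.ofReal δ + (u g + (ENNReal.ofReal δ + v g) + u h) := by gcongr
      _ = 2 * ENNReal.ofReal δ + (u g + v g) + u h := by ring
      _ ≤ 2 * ENNReal.ofReal δ + (u g + v g) + (u h + v h) := by gcongr; exact le_self_add

end

end Q71.SE
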