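import Pool.Agent.Q71.SE.Defs

/-!
# The invariant mean of a Folner sequence
-/

namespace Q71.SE

open Filter Topology Set

/-- limit along the hyperfilter -/
noncomputable def ulim (u : ℕ → ℝ) : ℝ := limUnder (hyperfilter ℕ : Filter ℕ) u

theorem tendsto_ulim {u : ℕ → ℝ} {a b : ℝ} (h : ∀ n, u n ∈ Icc a b) :
    Tendsto u (hyperfilter ℕ : Filter ℕ) (𝓝 (ulim u)) := by
  obtain ⟨x, _, hx⟩ := (isCompact_Icc (a := a) (b := b)).ultrafilter_le_nhds
    ((hyperfilter ℕ).map u) (by
      rw [le_principal_iff]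
      exact Filter.mem_map.2 (Filter.Eventually.of_forall h))
  have : Tendsto u (hyperfilter ℕ : Filter ℕ) (𝓝 x) := hx
  exact tendsto_nhds_limUnder ⟨x, this⟩

theorem hyper_le : (hyperfilter ℕ : Filter ℕ) ≤ atTop := by
  rw [← Nat.cofinite_eq_atTop]; exact hyperfilter_le_cofinite

theorem ulim_eq {u : ℕ → ℝ} {x : ℝ} (h : Tendsto u (hyperfilter ℕ : Filter ℕ) (𝓝 x)) :
    ulim u = x := h.limUnder_eq

variable {G : Type*} [Group G]

/-- average over a finite set -/
noncomputable def fav (F : Finset G) (f : G → ℝ) : ℝ := (∑ x ∈ F, f x) / F.card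

theorem fav_mem {F : Finset G} (hF : F.Nonempty) {f : G → ℝ} {a b : ℝ}
    (h : ∀ x, f x ∈ Icc a b) : fav F f ∈ Icc a b := by
  have hc : (0 : ℝ) < F.card := by exact_mod_cast hF.card_pos
  unfold fav
  refine ⟨?_, ?_⟩
  · rw [le_div_iff₀ hc]
    have := Finset.card_nsmul_le_sum F f a fun x _ => (h x).1
    rwa [nsmul_eq_mul, mul_comm] at this
  · rw [div_le_iff₀ hc]
    have := Finset.sum_le_card_nsmul F f b fun x _ => (h x).2
    rwa [nsmul_eq_mul, mul_comm] at this

/-- the mean -/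
noncomputable def mean (F : ℕ → Finset G) (f : G → ℝ) : ℝ := ulim fun n => fav (F n) f

theorem mean_tendsto {F : ℕ → Finset G} (hF : ∀ n, (F n).Nonempty) {f : G → ℝ} {a b : ℝ}
    (h : ∀ x, f x ∈ Icc a b) :
    Tendsto (fun n => fav (F n) f) (hyperfilter ℕ : Filter ℕ) (𝓝 (mean F f)) :=
  tendsto_ulim fun n => fav_mem (hF n) h

theorem mean_mem {F : ℕ → Finset G} (hF : ∀ n, (F n).Nonempty) {f : G → ℝ} {a b : ℝ}
    (h : ∀ x, f x ∈ Icc a b) : mean F f ∈ Icc a b :=
  isClosed_Icc.mem_of_tendsto (mean_tendsto hF h)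
    (Filter.Eventually.of_forall fun n => fav_mem (hF n) h)

theorem mean_mono {F : ℕ → Finset G} (hF : ∀ n, (F n).Nonempty) {f f' : G → ℝ} {a b a' b' : ℝ}
    (h : ∀ x, f x ∈ Icc a b) (h' : ∀ x, f' x ∈ Icc a' b') (hle : ∀ x, f x ≤ f' x) :
    mean F f ≤ mean F f' := by
  refine le_of_tendsto_of_tendsto' (mean_tendsto hF h) (mean_tendsto hF h') fun n => ?_
  unfold fav
  gcongr with x
  exact hle x

theorem mean_add {F : ℕ → Finset G} (hF : ∀ n, (F n).Nonempty) {f f' : G → ℝ} {a b a' b' : ℝ}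
    (h : ∀ x, f x ∈ Icc a b) (h' : ∀ x, f' x ∈ Icc a' b') :
    mean F (fun x => f x + f' x) = mean F f + mean F f' := by
  apply ulim_eq
  have := (mean_tendsto hF h).add (mean_tendsto hF h')
  refine this.congr fun n => ?_
  unfold fav
  rw [Finset.sum_add_distrib, add_div]

theorem mean_mul {F : ℕ → Finset G} (hF : ∀ n, (F n).Nonempty) {f : G → ℝ} {a b : ℝ} (c : ℝ)
    (h : ∀ x, f x ∈ Icc a b) :
    mean F (fun x => c * f x) = c * mean F f := by
  apply ulim_eq
  have := (mean_tendsto hF h).const_mul c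
  refine this.congr fun n => ?_
  unfold fav
  rw [← Finset.mul_sum, mul_div_assoc]

theorem mean_sum {F : ℕ → Finset G} (hF : ∀ n, (F n).Nonempty) {ι : Type*} (s : Finset ι)
    {f : ι → G → ℝ} {a b : ι → ℝ} (h : ∀ i x, f i x ∈ Icc (a i) (b i)) :
    mean F (fun x => ∑ i ∈ s, f i x) = ∑ i ∈ s, mean F (f i) := by
  apply ulim_eq
  have := tendsto_finsetSum s fun i _ => mean_tendsto hF (h i)
  refine this.congr fun n => ?_
  unfold fav
  rw [Finset.sum_comm, Finset.sum_div]

open Classical in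
theorem fav_left_bound (F : Finset G) (hF : F.Nonempty) {f : G → ℝ} {C : ℝ}
    (h : ∀ x, |f x| ≤ C) (t : G) :
    |fav F (fun x => f (t * x)) - fav F f| ≤
      C * ((symmDiff (F.image fun g => t * g) F).card / F.card) := by
  have hc : (0 : ℝ) < F.card := by exact_mod_cast hF.card_pos
  unfold fav
  rw [← sub_div, abs_div, abs_of_pos hc, ← mul_div_assoc]
  gcongr
  have h1 : ∑ x ∈ F, f (t * x) = ∑ y ∈ F.image (fun g => t * g), f y := by
    rw [Finset.sum_image]
    intro x _ y _ hxy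
    exact mul_left_cancel hxy
  rw [h1]
  set T := F.image (fun g => t * g) with hT
  have h2 : ∑ y ∈ T, f y - ∑ y ∈ F, f y = ∑ y ∈ T \ F, f y - ∑ y ∈ F \ T, f y := by
    rw [← Finset.sum_sdiff_sub_sum_sdiff]
  rw [h2]
  have h3 : ∀ s : Finset G, |∑ y ∈ s, f y| ≤ C * s.card := by
    intro s
    refine (Finset.abs_sum_le_sum_abs _ _).trans ?_
    have := Finset.sum_le_card_nsmul s (fun y => |f y|) C fun y _ => h y
    rwa [nsmul_eq_mul, mul_comm] at this
  have h4 : ((symmDiff T F).card : ℝ) = (T \ F).card + (F \ T).card := by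
    have : (symmDiff T F).card = (T \ F).card + (F \ T).card := by
      rw [symmDiff, Finset.sup_eq_union, Finset.card_union_of_disjoint]
      exact disjoint_sdiff_sdiff
    exact_mod_cast this
  rw [h4, mul_add]
  exact (abs_sub _ _).trans (add_le_add (h3 _) (h3 _))

theorem mean_left {F : ℕ → Finset G} (hF : IsFolner F) {f : G → ℝ} {C : ℝ}
    (h : ∀ x, |f x| ≤ C) (t : G) : mean F (fun x => f (t * x)) = mean F f := by
  classical
  apply ulim_eq
  have h1 : Tendsto (fun n => fav (F n) (fun x => f (t * x)) - fav (F n) f) atTop (𝓝 0) := by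
    apply squeeze_zero_norm (a := fun n => C * (((symmDiff ((F n).image fun g => t * g)
      (F n)).card : ℝ) / (F n).card))
    · intro n
      rw [Real.norm_eq_abs]
      exact fav_left_bound (F n) (hF.1 n) h t
    · have := (hF.2 t).const_mul C
      rwa [mul_zero] at this
  have h2 := mean_tendsto hF.1 (f := f) (a := -C) (b := C) fun x => abs_le.1 (h x)
  have h3 := (h1.mono_left hyper_le).add h2
  rw [zero_add] at h3
  exact h3.congr fun n => by ring

end Q71.SE
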