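import Pool.Agent.Q71.SE.TB
import Pool.Agent.Q71.SE.Mean

/-!
# Compact actions
-/

namespace Q71.SE

open MeasureTheory Filter Topology Set
open scoped ENNReal BoundedContinuousFunction

/-- The Koopman representation `f ↦ f ∘ g⁻¹` on `L²(X, μ)`. -/
noncomputable def koopman {G X : Type*} [Group G] [MulAction G X] [MeasurableSpace X]
    [MeasurableConstSMul G X] (μ : Measure X) [SMulInvariantMeasure G X μ] (g : G)
    (f : Lp ℂ 2 μ) : Lp ℂ 2 μ :=
  Lp.compMeasurePreserving (fun x : X => g⁻¹ • x) (measurePreserving_smul g⁻¹ μ) f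

/-- A p.m.p. action is compact if every `f ∈ L²(X, μ)` has a precompact orbit under the Koopman
representation `f ↦ f ∘ g⁻¹`. -/
def IsCompactAction (G : Type*) {X : Type*} [Group G] [MulAction G X] [MeasurableSpace X]
    [MeasurableConstSMul G X] (μ : Measure X) [SMulInvariantMeasure G X μ] : Prop :=
  ∀ f : Lp ℂ 2 μ, IsCompact (closure (Set.range fun g : G => koopman μ g f))

/-- `G` has an essentially free compact p.m.p. action on a standard probability space. -/
def HasFreeCompactAction (G : Type) [Group G] : Prop :=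
  ∃ (X : Type) (_ : MeasurableSpace X) (_ : StandardBorelSpace X) (_ : MulAction G X)
    (_ : MeasurableConstSMul G X) (μ : Measure X) (_ : IsProbabilityMeasure μ)
    (_ : SMulInvariantMeasure G X μ),
    (∀ g : G, g ≠ 1 → ∀ᵐ x ∂μ, g • x ≠ x) ∧ IsCompactAction G μ

section Invariant

variable {G X : Type*} [Group G] [MetricSpace X] [CompactSpace X] [MeasurableSpace X]
  [BorelSpace X] [MulAction G X] [ContinuousConstSMul G X]

/-- the orbital average of a Dirac mass -/
noncomputable def orbAv (F : Finset G) (x₀ : X) : Measure X :=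
  ∑ g ∈ F, ((F.card : ℝ≥0∞)⁻¹) • Measure.dirac (g • x₀)

theorem orbAv_prob {F : Finset G} (hF : F.Nonempty) (x₀ : X) :
    IsProbabilityMeasure (orbAv F x₀) := by
  constructor
  unfold orbAv
  rw [Measure.finsetSum_apply]
  simp only [Measure.smul_apply, measure_univ, smul_eq_mul, mul_one, Finset.sum_const,
    nsmul_eq_mul]
  have h1 : (F.card : ℝ≥0∞) ≠ 0 := by exact_mod_cast hF.card_pos.ne'
  exact ENNReal.mul_inv_cancel h1 (ENNReal.natCast_ne_top _)

theorem integral_orbAv (F : Finset G) (x₀ : X) (f : X →ᵇ ℝ) :
    ∫ x, f x ∂(orbAv F x₀) = fav F fun g => f (g • x₀) := by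
  unfold orbAv fav
  rcases Finset.eq_empty_or_nonempty F with rfl | hF
  · simp
  have h1 : (F.card : ℝ≥0∞) ≠ 0 := by exact_mod_cast hF.card_pos.ne'
  rw [integral_finsetSum_measure]
  · rw [Finset.sum_div]
    refine Finset.sum_congr rfl fun g _ => ?_
    rw [integral_smul_measure, integral_dirac]
    simp [div_eq_inv_mul]
  · intro g _
    exact (f.integrable _).smul_measure (ENNReal.inv_ne_top.2 h1)

theorem exists_invariant [Nonempty X] {F : ℕ → Finset G} (hF : IsFolner F) :
    ∃ μ : Measure X, IsProbabilityMeasure μ ∧ SMulInvariantMeasure G X μ := by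
  obtain ⟨x₀⟩ := ‹Nonempty X›
  let ν : ℕ → ProbabilityMeasure X := fun n => ⟨orbAv (F n) x₀, orbAv_prob (hF.1 n) x₀⟩
  obtain ⟨μ, -, hμ⟩ := (isCompact_univ (X := ProbabilityMeasure X)).ultrafilter_le_nhds
    ((hyperfilter ℕ).map ν) (by simp)
  have hμ' : Tendsto ν (hyperfilter ℕ : Filter ℕ) (𝓝 μ) := hμ
  have hint : ∀ f : X →ᵇ ℝ, ∫ x, f x ∂(μ : Measure X) = mean F fun g => f (g • x₀) := by
    intro f
    have h1 := (ProbabilityMeasure.tendsto_iff_forall_integral_tendsto.1 hμ') f
    have h2 : Tendsto (fun n => fav (F n) fun g => f (g • x₀)) (hyperfilter ℕ : Filter ℕ)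
        (𝓝 (∫ x, f x ∂(μ : Measure X))) := by
      refine h1.congr fun n => ?_
      exact integral_orbAv (F n) x₀ f
    exact (ulim_eq h2).symm
  refine ⟨μ, inferInstance, ⟨fun c s hs => ?_⟩⟩
  have hmap : Measure.map (fun x => c • x) (μ : Measure X) = (μ : Measure X) := by
    have hp : IsProbabilityMeasure (Measure.map (fun x => c • x) (μ : Measure X)) :=
      Measure.isProbabilityMeasure_map (measurable_const_smul c).aemeasurable
    apply ext_of_forall_integral_eq_of_IsFiniteMeasure
    intro f
    rw [integral_map (measurable_const_smul c).aemeasurable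
      f.continuous.measurable.aestronglyMeasurable]
    have h1 := hint (f.compContinuous ⟨fun x => c • x, continuous_const_smul c⟩)
    have h2 := hint f
    simp only [BoundedContinuousFunction.compContinuous_apply, ContinuousMap.coe_mk] at h1
    rw [h1, h2]
    have h3 := mean_left hF (f := fun g => f (g • x₀)) (C := ‖f‖)
      (fun g => f.norm_coe_le_norm _) c
    rw [← h3]
    simp_rw [mul_smul]
  calc (μ : Measure X) ((fun x => c • x) ⁻¹' s) =
      Measure.map (fun x => c • x) (μ : Measure X) s :=
        (Measure.map_apply (measurable_const_smul c) hs).symm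
    _ = _ := by rw [hmap]

end Invariant

section Koopman

variable {G X : Type*} [Group G] [MetricSpace X] [CompactSpace X] [MeasurableSpace X]
  [BorelSpace X] [MulAction G X] [MeasurableConstSMul G X]

theorem isCompactAction_of_tb {μ : Measure X} [IsProbabilityMeasure μ]
    [SMulInvariantMeasure G X μ] {D : G → G → ℝ} (hD : IsBi D)
    (hdist : ∀ (g h : G) (x : X), dist (g⁻¹ • x) (h⁻¹ • x) ≤ D g h) : IsCompactAction G μ := by
  intro f
  set T : G → Lp ℂ 2 μ → Lp ℂ 2 μ := fun g f =>
    Lp.compMeasurePreserving (fun x : X => g⁻¹ • x) (measurePreserving_smul g⁻¹ μ) f with hT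
  change IsCompact (closure (range fun g : G => T g f))
  have htb : TotallyBounded (range fun g : G => T g f) := by
    apply Metric.totallyBounded_of_finite_discretization
    intro ε hε
    obtain ⟨f', hf', hf'm⟩ := (Lp.memLp f).exists_boundedContinuous_eLpNorm_sub_le
      (by norm_num) (ε := ENNReal.ofReal (ε / 4)) (by simpa using hε)
    have huc : UniformContinuous (f' : X → ℂ) :=
      CompactSpace.uniformContinuous_of_continuous f'.continuous
    obtain ⟨δ, hδ, hδ2⟩ := Metric.uniformContinuous_iff.1 huc (ε / 4) (by positivity)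
    obtain ⟨κ, hκ, c, hc⟩ := hD.tb (δ / 2) (by positivity)
    have := Fintype.ofFinite κ
    refine ⟨ULift κ, inferInstance, fun x => ⟨c x.2.choose⟩, ?_⟩
    intro x y hxy
    have hx := x.2.choose_spec
    have hy := y.2.choose_spec
    set g := x.2.choose with hg
    set h := y.2.choose with hh
    have hgh : c g = c h := by simpa using hxy
    have hgh2 := hc g h hgh
    rw [← hx, ← hy]
    simp only
    set F' : Lp ℂ 2 μ := hf'm.toLp f' with hF'
    have h1 : ‖f - F'‖ ≤ ε / 4 := by
      rw [Lp.norm_def]
      apply ENNReal.toReal_le_of_le_ofReal (by positivity)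
      refine le_trans (le_of_eq (eLpNorm_congr_ae ?_)) hf'
      filter_upwards [Lp.coeFn_sub f F', hf'm.coeFn_toLp] with x hx1 hx2
      rw [hx1, Pi.sub_apply, Pi.sub_apply, ← hx2]
    have h2 : ‖T g F' - T h F'‖ ≤ ε / 4 := by
      rw [Lp.norm_def]
      apply ENNReal.toReal_le_of_le_ofReal (by positivity)
      have e1 : T g F' = ((hf'm.comp_measurePreserving (measurePreserving_smul g⁻¹ μ)).toLp _) :=
        Lp.toLp_compMeasurePreserving hf'm _
      have e2 : T h F' = ((hf'm.comp_measurePreserving (measurePreserving_smul h⁻¹ μ)).toLp _) :=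
        Lp.toLp_compMeasurePreserving hf'm _
      have h3 : ∀ᵐ x ∂μ, ‖(T g F' - T h F' : Lp ℂ 2 μ) x‖ ≤ ε / 4 := by
        rw [e1, e2]
        filter_upwards [Lp.coeFn_sub
            ((hf'm.comp_measurePreserving (measurePreserving_smul g⁻¹ μ)).toLp _)
            ((hf'm.comp_measurePreserving (measurePreserving_smul h⁻¹ μ)).toLp _),
          (hf'm.comp_measurePreserving (measurePreserving_smul g⁻¹ μ)).coeFn_toLp,
          (hf'm.comp_measurePreserving (measurePreserving_smul h⁻¹ μ)).coeFn_toLp]
          with x hx1 hx2 hx3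
        rw [hx1, Pi.sub_apply, hx2, hx3]
        simp only [Function.comp_apply]
        rw [← dist_eq_norm]
        refine (hδ2 ?_).le
        exact (hdist g h x).trans_lt (hgh2.trans_lt (by linarith))
      have h4 := eLpNorm_le_of_ae_bound (p := 2) h3
      refine h4.trans ?_
      simp
    have h5 : ∀ g, T g f = T g (f - F') + T g F' := fun g => by
      simp only [hT]
      rw [← map_add, sub_add_cancel]
    have h6 : ∀ g, ‖T g (f - F')‖ = ‖f - F'‖ := fun g => by
      simp only [hT]
      exact Lp.norm_compMeasurePreserving _ _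
    rw [dist_eq_norm]
    change ‖T g f - T h f‖ < ε
    rw [h5 g, h5 h]
    calc ‖T g (f - F') + T g F' - (T h (f - F') + T h F')‖ =
        ‖T g (f - F') - T h (f - F') + (T g F' - T h F')‖ := by congr 1; abel
      _ ≤ ‖T g (f - F')‖ + ‖T h (f - F')‖ + ‖T g F' - T h F'‖ :=
          (norm_add_le _ _).trans (by gcongr; exact norm_sub_le _ _)
      _ ≤ ε / 4 + ε / 4 + ε / 4 := by rw [h6, h6]; gcongr
      _ < ε := by linarith
  exact htb.closure.isCompact_of_isClosed isClosed_closure

end Koopman

/-- **Part I.** -/
theorem hasFreeCompactAction_of_faithful {G : Type} [Group G] {F : ℕ → Finset G}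
    (hF : IsFolner F) {D : G → G → ℝ} (hD : IsBi D) (hpos : ∀ g, g ≠ 1 → 0 < D g 1) :
    HasFreeCompactAction G := by
  let i1 : PseudoMetricSpace G :=
    { dist := D
      dist_self := hD.self
      dist_comm := hD.symm
      dist_triangle := hD.tri }
  have hdistG : ∀ g h : G, dist g h = D g h := fun g h => rfl
  have hiso : ∀ g : G, Isometry fun x : G => g • x := fun g =>
    Isometry.of_dist_eq fun x y => by
      rw [hdistG, hdistG, smul_eq_mul, smul_eq_mul, hD.left]
  have i2 : UniformContinuousConstSMul G G := ⟨fun g => (hiso g).uniformContinuous⟩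
  have htbG : TotallyBounded (univ : Set G) := by
    apply Metric.totallyBounded_of_finite_discretization
    intro ε hε
    obtain ⟨κ, hκ, c, hc⟩ := hD.tb (ε / 2) (by positivity)
    have := Fintype.ofFinite κ
    refine ⟨κ, inferInstance, fun x => c x, fun x y hxy => ?_⟩
    exact (hc _ _ hxy).trans_lt (by linarith)
  have i3 : CompactSpace (UniformSpace.Completion G) := by
    constructor
    refine TotallyBounded.isCompact_of_isClosed ?_ isClosed_univ
    have h1 : TotallyBounded (range ((↑) : G → UniformSpace.Completion G)) := by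
      rw [← image_univ]
      exact htbG.image (UniformSpace.Completion.uniformContinuous_coe G)
    have h2 := h1.closure
    rwa [UniformSpace.Completion.denseRange_coe.closure_range] at h2
  let i4 : MeasurableSpace (UniformSpace.Completion G) := borel _
  have i5 : BorelSpace (UniformSpace.Completion G) := ⟨rfl⟩
  have i6 : Nonempty (UniformSpace.Completion G) := ⟨((1 : G) : UniformSpace.Completion G)⟩
  obtain ⟨μ, i7, i8⟩ := exists_invariant (X := UniformSpace.Completion G) hF
  have hdist : ∀ (g h : G) (x : UniformSpace.Completion G), dist (g • x) (h • x) = D g h := by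
    intro g h x
    induction x using UniformSpace.Completion.induction_on with
    | hp => exact isClosed_eq ((continuous_const_smul g).dist (continuous_const_smul h))
              continuous_const
    | ih k =>
      rw [← UniformSpace.Completion.coe_smul, ← UniformSpace.Completion.coe_smul,
        UniformSpace.Completion.dist_eq, hdistG, smul_eq_mul, smul_eq_mul, hD.right]
  refine ⟨UniformSpace.Completion G, i4, inferInstance, inferInstance, inferInstance, μ, i7, i8,
    ?_, ?_⟩
  · intro g hg
    refine Filter.Eventually.of_forall fun x hx => ?_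
    have h1 := hdist g 1 x
    rw [one_smul, hx, dist_self] at h1
    exact (hpos g hg).ne h1
  · apply isCompactAction_of_tb hD
    intro g h x
    rw [hdist]
    have h1 : D g⁻¹ h⁻¹ = D h g := by
      rw [← hD.left g g⁻¹ h⁻¹, ← hD.right h (g * g⁻¹) (g * h⁻¹)]
      congr 1 <;> group
    rw [h1, hD.symm]

end Q71.SE
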