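import Mathlib

/-!
# Scaling entropy: definitions
-/

namespace Q71.SE

open MeasureTheory Filter Topology
open scoped ENNReal symmDiff

/-- A measurable semimetric on `X`: a measurable symmetric function `X × X → [0, ∞)` obeying the
triangle inequality. -/
structure IsSemimetric {X : Type*} [MeasurableSpace X] (ρ : X → X → ℝ) : Prop where
  meas : Measurable (Function.uncurry ρ)
  nonneg : ∀ x y, 0 ≤ ρ x y
  symm : ∀ x y, ρ x y = ρ y x
  triangle : ∀ x y z, ρ x z ≤ ρ x y + ρ y z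

/-- The `ρ`-diameter of a set. -/
noncomputable def diamOf {X : Type*} (ρ : X → X → ℝ) (S : Set X) : ℝ≥0∞ :=
  ⨆ x ∈ S, ⨆ y ∈ S, ENNReal.ofReal (ρ x y)

/-- `X = X₀ ∪ X₁ ∪ ⋯ ∪ X_k` with measurable pieces, `μ X₀ < ε` and `diam_ρ X_i < ε` for
`i ≥ 1`. -/
def HasCover {X : Type*} [MeasurableSpace X] (μ : Measure X) (ρ : X → X → ℝ) (ε : ℝ) (k : ℕ) :
    Prop :=
  ∃ (Z : Set X) (C : Fin k → Set X), MeasurableSet Z ∧ (∀ i, MeasurableSet (C i)) ∧
    (Z ∪ ⋃ i, C i) = Set.univ ∧ μ Z < ENNReal.ofReal ε ∧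
    ∀ i, diamOf ρ (C i) < ENNReal.ofReal ε

/-- The `ε`-entropy `ℍ_ε(X, μ, ρ) = log₂ k`, `k` the least positive integer with a cover as in
`HasCover`, and `+∞` if there is none. -/
noncomputable def epsEntropy {X : Type*} [MeasurableSpace X] (μ : Measure X) (ρ : X → X → ℝ)
    (ε : ℝ) : ℝ≥0∞ :=
  ⨅ (k : ℕ) (_ : 0 < k) (_ : HasCover μ ρ ε k), ENNReal.ofReal (Real.logb 2 k)

/-- Summable: `ρ ∈ L¹(μ × μ)`. -/
def IsSummable {X : Type*} [MeasurableSpace X] (μ : Measure X) (ρ : X → X → ℝ) : Prop :=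
  Integrable (Function.uncurry ρ) (μ.prod μ)

/-- Admissible: all the `ε`-entropies are finite. -/
def IsAdmissible {X : Type*} [MeasurableSpace X] (μ : Measure X) (ρ : X → X → ℝ) : Prop :=
  ∀ ε : ℝ, 0 < ε → epsEntropy μ ρ ε < ∞

/-- Generating: on a set of full measure, distinct points `x, y` have `ρ (g x) (g y) > 0` for
some `g`. -/
def IsGenerating (G : Type*) {X : Type*} [Group G] [MeasurableSpace X] [MulAction G X]
    (μ : Measure X) (ρ : X → X → ℝ) : Prop :=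
  ∃ X' : Set X, (∀ᵐ x ∂μ, x ∈ X') ∧
    ∀ x ∈ X', ∀ y ∈ X', x ≠ y → ∃ g : G, 0 < ρ (g • x) (g • y)

/-- The averaged semimetric `(x, y) ↦ |F|⁻¹ ∑_{g ∈ F} ρ (g x) (g y)`. -/
noncomputable def avg {G X : Type*} [Group G] [MulAction G X] (F : Finset G) (ρ : X → X → ℝ)
    (x y : X) : ℝ :=
  (∑ g ∈ F, ρ (g • x) (g • y)) / F.card

/-- `Φ_ρ(n, ε)`. -/
noncomputable def scal {G X : Type*} [Group G] [MulAction G X] [MeasurableSpace X]
    (μ : Measure X) (F : ℕ → Finset G) (ρ : X → X → ℝ) (n : ℕ) (ε : ℝ) : ℝ≥0∞ :=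
  epsEntropy μ (avg (F n) ρ) ε

/-- `Φ ≾ Ψ`: for every `ε > 0` there is `δ > 0` with `limsup_n Φ(n, ε) / Ψ(n, δ) < ∞`. -/
def Dominated (Φ Ψ : ℕ → ℝ → ℝ≥0∞) : Prop :=
  ∀ ε : ℝ, 0 < ε → ∃ δ : ℝ, 0 < δ ∧ limsup (fun n => Φ n ε / Ψ n δ) atTop < ∞

open Classical in
/-- A Folner sequence (of nonempty finite sets): `|e F_n ∆ F_n| / |F_n| → 0` for every `e`. -/
def IsFolner {G : Type*} [Group G] (F : ℕ → Finset G) : Prop :=
  (∀ n, (F n).Nonempty) ∧
  ∀ e : G, Tendsto (fun n => ((((F n).image (fun g => e * g)) ∆ (F n)).card : ℝ) / (F n).card)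
    atTop (𝓝 0)

/-- The sequence `φ` is a lower bound for the scaling entropy, along `F`, of every essentially
free probability-measure-preserving action of `G` on a standard probability space:
`φ ≾ Φ_ρ` for all its summable admissible generating semimetrics `ρ`. -/
def IsUniversalLowerBound (G : Type*) [Group G] (F : ℕ → Finset G) (φ : ℕ → ℕ) : Prop :=
  ∀ (X : Type) [MeasurableSpace X] [StandardBorelSpace X] [MulAction G X]
    [MeasurableConstSMul G X] (μ : Measure X) [IsProbabilityMeasure μ]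
    [SMulInvariantMeasure G X μ],
    (∀ g : G, g ≠ 1 → ∀ᵐ x ∂μ, g • x ≠ x) →
    ∀ ρ : X → X → ℝ, IsSemimetric ρ → IsSummable μ ρ → IsAdmissible μ ρ →
      IsGenerating G μ ρ →
      Dominated (fun n _ => (φ n : ℝ≥0∞)) (scal μ F ρ)

/-- The restricted wreath product `A ≀ ℤ`: pairs `(f, s)`, `f : ℤ → A` of finite support, with
`(f, s) (g, t) = (f · g(· - s), s + t)`. -/
@[ext]
structure Lamplighter (A : Type*) [Group A] where
  /-- the lamps -/
  lamp : ℤ → A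
  /-- all but finitely many lamps are off -/
  fin : {i | lamp i ≠ 1}.Finite
  /-- the position -/
  pos : ℤ

end Q71.SE
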