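import Pool.Agent.Q71.SE.Lamp

namespace Q71.SE

open Filter Topology Set

variable {A : Type*} [Group A]

namespace Lamplighter

instance [Countable A] : Countable (Lamplighter A) := by
  have hA : Countable (Additive A) := inferInstanceAs (Countable A)
  let f : Lamplighter A → (ℤ →₀ Additive A) × ℤ := fun x =>
    (Finsupp.ofSupportFinite (fun i => Additive.ofMul (x.lamp i)) x.fin, x.pos)
  have hf : Function.Injective f := by
    intro x y hxy
    simp only [f, Prod.mk.injEq] at hxy
    refine ext' (fun i => ?_) hxy.2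
    have := DFunLike.congr_fun hxy.1 i
    exact this
  exact hf.countable

/-- the lamp at `0` -/
def lampAt (a : A) : Lamplighter A :=
  ⟨fun i => if i = 0 then a else 1, (Set.finite_singleton (0 : ℤ)).subset fun i hi => by
    by_contra h
    exact hi (by simp only [mem_singleton_iff] at h; simp [h]), 0⟩

/-- pure translation -/
def tr (A : Type*) [Group A] (t : ℤ) : Lamplighter A := ⟨fun _ => 1, by simp, t⟩

@[simp] theorem lampAt_lamp (a : A) (i : ℤ) : (lampAt a).lamp i = if i = 0 then a else 1 := rfl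
@[simp] theorem lampAt_pos (a : A) : (lampAt a).pos = 0 := rfl
@[simp] theorem tr_lamp (t i : ℤ) : (tr A t).lamp i = 1 := rfl
@[simp] theorem tr_pos (t : ℤ) : (tr A t).pos = t := rfl

theorem tr_pow (m : ℕ) : (tr A 1) ^ m = tr A m := by
  induction m with
  | zero => exact ext' (fun i => by simp) (by simp)
  | succ k ih =>
    rw [pow_succ, ih]
    exact ext' (fun i => by simp) (by simp)

theorem lampAt_ne {a b : A} (hab : a * b ≠ b * a) :
    lampAt a * lampAt b ≠ lampAt b * lampAt a := by
  intro h
  apply hab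
  have := congrArg (fun x => Lamplighter.lamp x 0) h
  simpa using this

theorem comm_tr (a b : A) (m : ℕ) (hm : 1 ≤ m) :
    ((tr A 1) ^ m)⁻¹ * lampAt a * (tr A 1) ^ m * lampAt b =
      lampAt b * (((tr A 1) ^ m)⁻¹ * lampAt a * (tr A 1) ^ m) := by
  rw [tr_pow]
  refine ext' (fun i => ?_) (by simp)
  simp only [mul_lamp, inv_lamp, tr_lamp, inv_one, inv_pos, tr_pos, lampAt_lamp, one_mul, mul_one,
    mul_pos, lampAt_pos]
  split_ifs <;> first | rfl | (exfalso; omega) | (simp)

/-- the sets of the Folner sequence -/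
def fset (A : Type*) [Group A] (N : ℕ) : Set (Lamplighter A) :=
  {x | (0 ≤ x.pos ∧ x.pos < N) ∧ ∀ i, x.lamp i ≠ 1 → x.pos - N ≤ i ∧ i ≤ x.pos}

theorem fset_finite [Finite A] (N : ℕ) : (fset A N).Finite := by
  classical
  apply Set.Finite.of_injOn (f := fun x : Lamplighter A =>
    ((fun i : Icc (-(N : ℤ)) N => x.lamp i), x.pos))
    (t := (univ : Set (Icc (-(N : ℤ)) N → A)) ×ˢ Icc (0 : ℤ) N)
  · intro x hx
    exact ⟨trivial, hx.1.1, hx.1.2.le⟩
  · intro x hx y hy hxy
    simp only [Prod.mk.injEq] at hxy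
    refine ext' (fun i => ?_) hxy.2
    by_cases hi : i ∈ Icc (-(N : ℤ)) N
    · exact congrFun hxy.1 ⟨i, hi⟩
    · have h1 : x.lamp i = 1 := by
        by_contra h
        have := hx.2 i h
        have h2 := hx.1
        exact hi ⟨by omega, by omega⟩
      have h3 : y.lamp i = 1 := by
        by_contra h
        have := hy.2 i h
        have h2 := hy.1
        exact hi ⟨by omega, by omega⟩
      rw [h1, h3]
  · exact Set.finite_univ.prod (Set.finite_Icc _ _)

/-- the Folner sets -/
noncomputable def fol (A : Type*) [Group A] [Finite A] (n : ℕ) : Finset (Lamplighter A) :=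
  (fset_finite (A := A) (n + 1)).toFinset

theorem mem_fol [Finite A] {n : ℕ} {x : Lamplighter A} : x ∈ fol A n ↔
    (0 ≤ x.pos ∧ x.pos < n + 1) ∧ ∀ i, x.lamp i ≠ 1 → x.pos - (n + 1) ≤ i ∧ i ≤ x.pos := by
  rw [fol, Set.Finite.mem_toFinset, fset]
  simp

theorem one_mem_fol [Finite A] (n : ℕ) : (1 : Lamplighter A) ∈ fol A n := by
  rw [mem_fol]
  refine ⟨⟨by simp, by simp⟩, fun i hi => absurd rfl hi⟩

open Classical in
theorem card_fiber_le [Finite A] (n : ℕ) (s : ℤ) :
    ((fol A n).filter fun x => x.pos = s).card ≤ ((fol A n).filter fun x => x.pos = 0).card := by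
  apply Finset.card_le_card_of_injOn (fun x => tr A (-s) * x)
  · intro x hx
    rw [Finset.mem_coe, Finset.mem_filter, mem_fol] at hx ⊢
    refine ⟨⟨⟨by simp; omega, by simp; omega⟩, fun i hi => ?_⟩, by simp; omega⟩
    have := hx.1.2 (i + s) (by simpa using hi)
    simp only [mul_pos, tr_pos]
    omega
  · intro x _ y _ hxy
    exact mul_left_cancel hxy

open Classical in
theorem card_fiber [Finite A] (n : ℕ) {s : ℤ} (h0 : 0 ≤ s) (h1 : s < n + 1) :
    ((fol A n).filter fun x => x.pos = 0).card ≤ ((fol A n).filter fun x => x.pos = s).card := by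
  apply Finset.card_le_card_of_injOn (fun x => tr A s * x)
  · intro x hx
    rw [Finset.mem_coe, Finset.mem_filter, mem_fol] at hx ⊢
    refine ⟨⟨⟨by simp; omega, by simp; omega⟩, fun i hi => ?_⟩, by simp; omega⟩
    have := hx.1.2 (i - s) (by simpa using hi)
    simp only [mul_pos, tr_pos]
    omega
  · intro x _ y _ hxy
    exact mul_left_cancel hxy

open Classical in
theorem card_fol [Finite A] (n : ℕ) :
    (n + 1) * ((fol A n).filter fun x => x.pos = 0).card ≤ (fol A n).card := by
  have h1 : ((Finset.range (n + 1)).biUnion fun s : ℕ =>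
      (fol A n).filter fun x => x.pos = (s : ℤ)) ⊆ fol A n := by
    intro x hx
    obtain ⟨s, _, hs⟩ := Finset.mem_biUnion.1 hx
    exact (Finset.mem_filter.1 hs).1
  have h2 := Finset.card_le_card h1
  rw [Finset.card_biUnion] at h2
  · refine le_trans ?_ h2
    have h3 : ∀ s ∈ Finset.range (n + 1), ((fol A n).filter fun x => x.pos = 0).card ≤
        ((fol A n).filter fun x => x.pos = (s : ℤ)).card := fun s hs =>
      card_fiber n (by omega) (by have := Finset.mem_range.1 hs; omega)
    have h4 := Finset.sum_le_sum h3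
    rwa [Finset.sum_const, Finset.card_range, smul_eq_mul] at h4
  · intro s _ t _ hst
    rw [Function.onFun, Finset.disjoint_left]
    intro x hx hx'
    have e1 := (Finset.mem_filter.1 hx).2
    have e2 := (Finset.mem_filter.1 hx').2
    omega

theorem exists_radius (e : Lamplighter A) : ∃ r : ℕ, (∀ i, e.lamp i ≠ 1 → |i| ≤ r) ∧
    |e.pos| ≤ r := by
  obtain ⟨M, hM⟩ := (e.fin.image fun i => |i|).bddAbove
  refine ⟨M.toNat + e.pos.natAbs, fun i hi => ?_, ?_⟩
  · have := hM (mem_image_of_mem _ hi)
    have h2 := abs_nonneg i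
    have h3 := abs_nonneg e.pos
    push_cast
    omega
  · push_cast
    have : |e.pos| = (e.pos.natAbs : ℤ) := by simp
    omega

open Classical in
theorem card_bad [Finite A] (e : Lamplighter A) : ∃ r : ℕ, ∀ n : ℕ,
    ((fol A n).filter fun x => e * x ∉ fol A n).card ≤
      4 * r * ((fol A n).filter fun x => x.pos = 0).card := by
  obtain ⟨r, hr, hr2⟩ := exists_radius e
  refine ⟨r, fun n => ?_⟩
  have h1 : ((fol A n).filter fun x => e * x ∉ fol A n) ⊆
      (Finset.Ico (0 : ℤ) (2 * r) ∪ Finset.Ico ((n : ℤ) + 1 - 2 * r) (n + 1)).biUnion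
        fun s => (fol A n).filter fun x => x.pos = s := by
    intro x hx
    rw [Finset.mem_filter] at hx
    rw [Finset.mem_biUnion]
    refine ⟨x.pos, ?_, by rw [Finset.mem_filter]; exact ⟨hx.1, rfl⟩⟩
    rw [Finset.mem_union, Finset.mem_Ico, Finset.mem_Ico]
    have hx1 := hx.1
    rw [mem_fol] at hx1
    by_contra hcon
    have h2 : 2 * (r : ℤ) ≤ x.pos := by
      by_contra h; exact hcon (Or.inl ⟨hx1.1.1, by omega⟩)
    have h3 : x.pos < (n : ℤ) + 1 - 2 * r := by
      by_contra h; exact hcon (Or.inr ⟨by omega, hx1.1.2⟩)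
    apply hx.2
    rw [mem_fol]
    rw [abs_le] at hr2
    refine ⟨⟨by simp; omega, by simp; omega⟩, fun i hi => ?_⟩
    simp only [mul_lamp, mul_pos] at hi ⊢
    by_cases h4 : e.lamp i = 1
    · rw [h4, one_mul] at hi
      have := hx1.2 _ hi
      omega
    · have := hr i h4
      rw [abs_le] at this
      omega
  refine (Finset.card_le_card h1).trans (Finset.card_biUnion_le.trans ?_)
  calc _ ≤ ∑ s ∈ (Finset.Ico (0 : ℤ) (2 * r) ∪ Finset.Ico ((n : ℤ) + 1 - 2 * r) (n + 1)),
        ((fol A n).filter fun x => x.pos = 0).card :=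
        Finset.sum_le_sum fun s _ => card_fiber_le n s
    _ ≤ _ := by
        rw [Finset.sum_const, smul_eq_mul]
        gcongr
        refine (Finset.card_union_le _ _).trans ?_
        rw [Int.card_Ico, Int.card_Ico]
        omega

end Lamplighter

open Classical in
theorem isFolner_fol [Finite A] : IsFolner (Lamplighter.fol A) := by
  refine ⟨fun n => ⟨1, Lamplighter.one_mem_fol n⟩, fun e => ?_⟩
  obtain ⟨r, hr⟩ := Lamplighter.card_bad e
  have hbound : ∀ n : ℕ, ((symmDiff ((Lamplighter.fol A n).image (fun g => e * g))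
      (Lamplighter.fol A n)).card : ℝ) / (Lamplighter.fol A n).card ≤ 8 * r * (1 / ((n : ℝ) + 1)) := by
    intro n
    set F := Lamplighter.fol A n with hF
    set m := (F.filter fun x => x.pos = 0).card with hm
    have h1 : (symmDiff (F.image (fun g => e * g)) F).card ≤
        2 * (F.filter fun x => e * x ∉ F).card := by
      have h2 : (F.image (fun g => e * g)).card = F.card :=
        Finset.card_image_of_injective _ (mul_right_injective e)
      have h3 : ((F.image (fun g => e * g)) \ F).card ≤ (F.filter fun x => e * x ∉ F).card := by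
        refine (Finset.card_le_card (t := (F.filter fun x => e * x ∉ F).image fun g => e * g)
          ?_).trans Finset.card_image_le
        intro y hy
        rw [Finset.mem_sdiff, Finset.mem_image] at hy
        obtain ⟨⟨x, hx, rfl⟩, hy2⟩ := hy
        exact Finset.mem_image_of_mem _ (Finset.mem_filter.2 ⟨hx, hy2⟩)
      have h4 := Finset.card_sdiff_comm h2
      rw [symmDiff, Finset.sup_eq_union]
      refine (Finset.card_union_le _ _).trans ?_
      omega
    have h5 := hr n
    have h6 := Lamplighter.card_fol (A := A) n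
    have hmpos : 0 < m := by
      rw [hm, Finset.card_pos]
      exact ⟨1, Finset.mem_filter.2 ⟨Lamplighter.one_mem_fol n, rfl⟩⟩
    have hFpos : 0 < F.card := Finset.card_pos.2 ⟨1, Lamplighter.one_mem_fol n⟩
    rw [← hF, ← hm] at h5 h6
    have h7 : ((symmDiff (F.image (fun g => e * g)) F).card : ℝ) ≤ 8 * r * m := by
      have : (symmDiff (F.image (fun g => e * g)) F).card ≤ 8 * r * m := by linarith
      exact_mod_cast this
    have h8 : ((n : ℝ) + 1) * m ≤ F.card := by exact_mod_cast h6
    have hFr : (0 : ℝ) < F.card := by exact_mod_cast hFpos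
    rw [div_le_iff₀ hFr]
    have h9 : (8 * (r : ℝ) * (1 / ((n : ℝ) + 1))) * (((n : ℝ) + 1) * m) ≤
        8 * r * (1 / ((n : ℝ) + 1)) * F.card := by gcongr
    refine h7.trans (le_trans (le_of_eq ?_) h9)
    field_simp
  refine squeeze_zero (fun n => by positivity) hbound ?_
  have := (tendsto_one_div_add_atTop_nhds_zero_nat (𝕜 := ℝ)).const_mul (8 * (r : ℝ))
  rwa [mul_zero] at this

end Q71.SE
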