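import Pool.Agent.Q71.SE.Koop

namespace Q71.SE

open MeasureTheory Filter Topology Set
open scoped ENNReal

open Classical in
/-- A countable group with a nontrivial element invisible to the totally bounded bi-invariant
pseudometrics: every Folner sequence admits a universal lower bound tending to infinity. -/
theorem gap_of_inKer {G : Type*} [Group G] [Countable G] {g₀ : G} (hg₀ : InKer g₀)
    (hne : g₀ ≠ 1) {F : ℕ → Finset G} (hF : IsFolner F) :
    ∃ φ : ℕ → ℕ, Tendsto φ atTop atTop ∧ IsUniversalLowerBound G F φ := by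
  obtain ⟨e, he⟩ := exists_surjective_nat G
  have htest := fun (k i j : ℕ) => exists_test hF (hg₀.conj (e j)) (2 ^ (4 ^ k))
    (η := 1 / ((i : ℝ) + 1)) (by positivity)
  choose E hE using htest
  set P : ℕ → ℕ → Prop := fun k n => ∀ i ∈ Finset.range (k + 1), ∀ j ∈ Finset.range (k + 1),
    ∀ s ∈ E k i j, 16 * ((F n).filter fun g => s⁻¹ * g ∉ F n).card ≤ (F n).card with hP
  have hPev : ∀ k, ∀ᶠ n in atTop, P k n := by
    intro k
    simp only [hP]
    rw [eventually_all_finset]
    intro i _
    rw [eventually_all_finset]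
    intro j _
    rw [eventually_all_finset]
    intro s _
    exact folner_eventually hF _
  set φ : ℕ → ℕ := fun n => Nat.findGreatest (fun k => P k n) n with hφ
  have hφ1 : Tendsto φ atTop atTop := by
    rw [tendsto_atTop]
    intro k
    filter_upwards [hPev k, eventually_ge_atTop k] with n hn hkn
    exact Nat.le_findGreatest hkn hn
  have hφ2 : ∀ᶠ n in atTop, P (φ n) n := by
    filter_upwards [hPev 0] with n hn
    exact Nat.findGreatest_spec (P := fun k => P k n) (Nat.zero_le n) hn
  refine ⟨φ, hφ1, ?_⟩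
  intro X _ _ _ _ μ _ _ hfree ρ hρ _ hadm hgen
  obtain ⟨g, hg⟩ := exists_pos_D μ hρ hgen (hfree g₀⁻¹ (by simpa using hne))
  obtain ⟨j, hj⟩ := he g
  set t : G := e j * g₀ * (e j)⁻¹ with ht
  have htinv : t⁻¹ = g * g₀⁻¹ * g⁻¹ := by rw [ht, hj]; group
  set r : ℝ := dist2 (actKer μ ρ) t 1 with hr
  have hr0 : 0 ≤ r := by
    rw [hr, actKer_dist2 hρ]
    exact integral_nonneg fun p => sq_nonneg _
  have hrpos : 0 < r := by
    refine lt_of_le_of_ne hr0 (Ne.symm fun h => hg ?_)
    have := D_eq_zero_of_dist2 hρ hadm (t := t) h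
    rwa [htinv] at this
  obtain ⟨i, hi⟩ := exists_nat_one_div_lt (show (0 : ℝ) < min 1 (r / 9) by positivity)
  have hi1 : 1 / ((i : ℝ) + 1) < 1 := hi.trans_le (min_le_left _ _)
  have hi2 : 1 / ((i : ℝ) + 1) < r / 9 := hi.trans_le (min_le_right _ _)
  have hi0 : 0 < 1 / ((i : ℝ) + 1) := by positivity
  set η : ℝ := 1 / ((i : ℝ) + 1) with hη
  set δ : ℝ := η ^ 2 / 66 with hδ
  have hδpos : 0 < δ := by positivity
  obtain ⟨L, hL⟩ : ∃ L, HasCover μ ρ δ L := by
    have h1 := hadm δ hδpos
    unfold epsEntropy at h1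
    simp only [iInf_lt_iff] at h1
    obtain ⟨L, _, hL, _⟩ := h1
    exact ⟨L, hL⟩
  intro _ _
  refine ⟨δ, hδpos, ?_⟩
  have key : ∀ᶠ n in atTop, (φ n : ℝ≥0∞) ≤ scal μ F ρ n δ := by
    filter_upwards [hφ2, hφ1.eventually_ge_atTop j, hφ1.eventually_ge_atTop i,
      hφ1.eventually_ge_atTop (4 * L + 2)] with n hn hjn hin hLn
    unfold scal epsEntropy
    refine le_iInf fun K => le_iInf fun hK0 => le_iInf fun hK => ?_
    have hK2 : 2 ^ (φ n) ≤ K := by
      by_contra hcon
      rw [not_le] at hcon
      have hnum := num_bound hcon hLn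
      have hclose := hE (φ n) i j (actKer μ ρ) (actKer_isKer hρ) (by
        intro S hS hScard
        have hSc : 2 * (L + 1) ^ K < S.card := by
          rw [hScard]
          refine lt_of_le_of_lt ?_ hnum
          gcongr
          · omega
          · omega
        obtain ⟨s, hs, s', hs', hne', hle⟩ := exists_close hρ (F n) (hF.1 n) hδpos hK hL S hSc
          (fun s hs => hn i (Finset.mem_range.2 (by omega)) j (Finset.mem_range.2 (by omega))
            s (hS hs))
        refine ⟨s, hs, s', hs', hne', ?_⟩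
        have h1 := (actKer_dist2_le (μ := μ) hρ s s').trans hle
        have h2 : 66 * δ = η ^ 2 := by rw [hδ]; ring
        rw [h2] at h1
        exact (ENNReal.ofReal_le_ofReal_iff (by positivity)).1 h1)
      have h3 : r ≤ 9 * η ^ 2 := hclose
      nlinarith
    have h6 : (φ n : ℝ) ≤ Real.logb 2 K := by
      rw [Real.le_logb_iff_rpow_le (by norm_num) (by exact_mod_cast hK0), Real.rpow_natCast]
      exact_mod_cast hK2
    rw [← ENNReal.ofReal_natCast]
    exact ENNReal.ofReal_le_ofReal h6
  have h7 : limsup (fun n => (φ n : ℝ≥0∞) / scal μ F ρ n δ) atTop ≤ 1 := by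
    apply limsup_le_of_le (by isBoundedDefault)
    filter_upwards [key] with n hn
    exact ENNReal.div_le_of_le_mul (by rw [one_mul]; exact hn)
  exact h7.trans_lt ENNReal.one_lt_top

end Q71.SE
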