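import Mathlib

/-!
# Quadratic forms of bounded trace, and the pre-Hilbert space of a kernel
-/

namespace Q71.SE

open Filter Topology Set
open scoped InnerProductSpace

section Trace

variable {V : Type*} [SeminormedAddCommGroup V] [InnerProductSpace ℝ V]

theorem orthonormal_cons {m : ℕ} {e : Fin m → V} (he : Orthonormal ℝ e) {x : V} (hx : ‖x‖ = 1)
    (hxe : ∀ i, ⟪e i, x⟫_ℝ = 0) : Orthonormal ℝ (Fin.cons x e : Fin (m + 1) → V) := by
  refine ⟨fun i => ?_, fun i j hij => ?_⟩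
  · refine Fin.cases ?_ (fun i => ?_) i
    · simpa using hx
    · simpa using he.1 i
  · revert hij
    refine Fin.cases ?_ (fun i => ?_) i <;> refine Fin.cases ?_ (fun j => ?_) j
    · intro h; exact absurd rfl h
    · intro _
      simp only [Fin.cons_zero, Fin.cons_succ]
      rw [real_inner_comm]; exact hxe j
    · intro _
      simp only [Fin.cons_zero, Fin.cons_succ]
      exact hxe i
    · intro h
      simp only [Fin.cons_succ]
      exact he.2 (fun h' => h (by rw [h']))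

theorem exists_trace_basis {Q : V → ℝ} (h1 : ∀ x, Q x ≤ ‖x‖ ^ 2)
    (h2 : ∀ x y, Q (x + y) ≤ 2 * Q x + 2 * Q y) (h3 : ∀ (c : ℝ) x, Q (c • x) = c ^ 2 * Q x)
    {B : ℝ} (h4 : ∀ (m : ℕ) (e : Fin m → V), Orthonormal ℝ e → ∑ i, Q (e i) ≤ B)
    {ε : ℝ} (hε : 0 < ε) :
    ∃ (m : ℕ) (e : Fin m → V), (∀ i, ‖e i‖ = 1) ∧
      ∀ x, Q x ≤ 2 * ε * ‖x‖ ^ 2 + 2 * ∑ i, ⟪e i, x⟫_ℝ ^ 2 := by
  set S : Set ℝ := {r | ∃ (m : ℕ) (e : Fin m → V), Orthonormal ℝ e ∧ r = ∑ i, Q (e i)} with hS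
  have hSne : S.Nonempty := ⟨0, 0, Fin.elim0, ⟨fun i => i.elim0, fun i => i.elim0⟩, by simp⟩
  have hSb : BddAbove S := ⟨B, by rintro _ ⟨m, e, he, rfl⟩; exact h4 m e he⟩
  obtain ⟨r, ⟨m, e, he, rfl⟩, hr⟩ := exists_lt_of_lt_csSup hSne (sub_lt_self (sSup S) hε)
  refine ⟨m, e, he.1, fun x => ?_⟩
  set P : V := ∑ i, ⟪e i, x⟫_ℝ • e i with hP
  set y : V := x - P with hy
  have hye : ∀ i, ⟪e i, y⟫_ℝ = 0 := by
    intro i
    rw [hy, inner_sub_right, hP, he.inner_right_fintype]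
    ring
  have hPn : ‖P‖ ^ 2 = ∑ i, ⟪e i, x⟫_ℝ ^ 2 := by
    rw [← real_inner_self_eq_norm_sq, hP, he.inner_sum]
    refine Finset.sum_congr rfl fun i _ => ?_
    simp [pow_two]
  have hyn : ‖y‖ ^ 2 ≤ ‖x‖ ^ 2 := by
    have h5 : ⟪P, y⟫_ℝ = 0 := by
      rw [hP, sum_inner]
      refine Finset.sum_eq_zero fun i _ => ?_
      rw [real_inner_smul_left, hye, mul_zero]
    have h6 : x = P + y := by rw [hy]; abel
    rw [h6, norm_add_sq_real, h5]
    nlinarith [sq_nonneg ‖P‖]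
  have hQy : Q y ≤ ε * ‖y‖ ^ 2 := by
    by_cases hy0 : ‖y‖ = 0
    · have := h1 y
      rw [hy0] at this ⊢
      simpa using this
    · have hypos : 0 < ‖y‖ := lt_of_le_of_ne (norm_nonneg _) (Ne.symm hy0)
      have h7 : ‖(‖y‖⁻¹ : ℝ) • y‖ = 1 := by
        rw [norm_smul, norm_inv, norm_norm, inv_mul_cancel₀ hy0]
      have h8 := orthonormal_cons he h7 (fun i => by rw [real_inner_smul_right, hye, mul_zero])
      have h9 : ∑ i, Q ((Fin.cons ((‖y‖⁻¹ : ℝ) • y) e : Fin (m + 1) → V) i) ≤ sSup S :=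
        le_csSup hSb ⟨m + 1, _, h8, rfl⟩
      rw [Fin.sum_univ_succ] at h9
      simp only [Fin.cons_zero, Fin.cons_succ] at h9
      rw [h3] at h9
      have h10 : (‖y‖⁻¹) ^ 2 * Q y ≤ ε := by linarith
      have h11 : Q y = ((‖y‖⁻¹) ^ 2 * Q y) * ‖y‖ ^ 2 := by
        field_simp
      rw [h11]
      exact mul_le_mul_of_nonneg_right h10 (sq_nonneg _)
  have hx : x = y + P := by rw [hy]; abel
  calc Q x = Q (y + P) := by rw [← hx]
    _ ≤ 2 * Q y + 2 * Q P := h2 _ _
    _ ≤ 2 * (ε * ‖x‖ ^ 2) + 2 * ∑ i, ⟪e i, x⟫_ℝ ^ 2 := by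
        have h12 := h1 P
        rw [hPn] at h12
        have h13 : ε * ‖y‖ ^ 2 ≤ ε * ‖x‖ ^ 2 := by gcongr
        linarith
    _ = _ := by ring

end Trace

section GNS

universe u

theorem exists_space {X : Type u} {k : X → X → ℝ} (hsymm : ∀ g h, k g h = k h g)
    (hpsd : ∀ (s : Finset X) (a : X → ℝ), 0 ≤ ∑ g ∈ s, ∑ h ∈ s, a g * a h * k g h) :
    ∃ (V : Type u) (_ : SeminormedAddCommGroup V) (_ : InnerProductSpace ℝ V) (ι : X → V),
      ∀ g h, ⟪ι g, ι h⟫_ℝ = k g h := by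
  let core : PreInnerProductSpace.Core ℝ (X →₀ ℝ) :=
    { inner := fun f g => f.sum fun x a => g.sum fun y b => a * b * k x y
      conj_inner_symm := fun f g => by
        simp only [conj_trivial]
        rw [Finsupp.sum_comm]
        simp only [Finsupp.sum]
        refine Finset.sum_congr rfl fun x _ => Finset.sum_congr rfl fun y _ => ?_
        rw [hsymm x y]; ring
      re_inner_nonneg := fun f => by
        simpa [Finsupp.sum] using hpsd f.support f
      add_left := fun f g h => by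
        rw [Finsupp.sum_add_index']
        · intro x; simp
        · intro x a b; simp [← Finsupp.sum_add, add_mul]
      smul_left := fun f g r => by
        rw [Finsupp.sum_smul_index]
        · simp [Finsupp.mul_sum, ← mul_assoc]
        · intro x; simp }
  let i1 : SeminormedAddCommGroup (X →₀ ℝ) :=
    InnerProductSpace.Core.toSeminormedAddCommGroup (𝕜 := ℝ)
  refine ⟨X →₀ ℝ, i1, .ofCore core, fun g => Finsupp.single g 1, ?_⟩
  intro g h
  change (Finsupp.single g (1 : ℝ)).sum (fun x a => (Finsupp.single h (1 : ℝ)).sum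
    fun y b => a * b * k x y) = k g h
  rw [Finsupp.sum_single_index (by simp), Finsupp.sum_single_index (by simp)]
  ring

end GNS

end Q71.SE
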