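import Pool.Agent.Q71.SE.TB
import Pool.Agent.Q71.SE.Mean
import Pool.Agent.Q71.SE.Trace

/-!
# Positive definite kernels on an amenable group
-/

namespace Q71.SE

open Filter Topology Set
open scoped InnerProductSpace

universe u

variable {G : Type u} [Group G]

/-- left-invariant positive semidefinite kernels of norm at most one -/
structure IsKer (k : G → G → ℝ) : Prop where
  symm : ∀ g h, k g h = k h g
  psd : ∀ (s : Finset G) (a : G → ℝ), 0 ≤ ∑ g ∈ s, ∑ h ∈ s, a g * a h * k g h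
  inv : ∀ t g h, k (t * g) (t * h) = k g h
  le_one : k 1 1 ≤ 1

/-- squared distance -/
def dist2 (k : G → G → ℝ) (g h : G) : ℝ := k g g + k h h - 2 * k g h

/-- the averaged pseudometric of a kernel -/
noncomputable def D1 (F : ℕ → Finset G) (k : G → G → ℝ) (g h : G) : ℝ :=
  mean F fun x => |k x g - k x h| / 2

section

variable {k : G → G → ℝ} (hk : IsKer k)
  {V : Type u} [SeminormedAddCommGroup V] [InnerProductSpace ℝ V] {ι : G → V}
  (hι : ∀ g h, ⟪ι g, ι h⟫_ℝ = k g h)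

omit [Group G] in
include hι in
theorem norm_sub_sq_iota (g h : G) : ‖ι g - ι h‖ ^ 2 = dist2 k g h := by
  rw [norm_sub_sq_real, ← real_inner_self_eq_norm_sq, ← real_inner_self_eq_norm_sq, hι, hι, hι]
  unfold dist2; ring

omit [Group G] in
include hι in
theorem ker_sub (x g h : G) : k x g - k x h = ⟪ι x, ι g - ι h⟫_ℝ := by
  rw [inner_sub_right, hι, hι]

include hk in
theorem IsKer.diag (g : G) : k g g = k 1 1 := by
  have := hk.inv g 1 1
  rwa [mul_one] at this

include hk hι in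
theorem norm_iota (g : G) : ‖ι g‖ ≤ 1 := by
  have h1 : ‖ι g‖ ^ 2 ≤ 1 := by
    rw [← real_inner_self_eq_norm_sq, hι, hk.diag]; exact hk.le_one
  nlinarith [norm_nonneg (ι g)]

include hk hι in
theorem abs_ker_sub_le (x g h : G) : |k x g - k x h| ≤ 2 := by
  rw [ker_sub hι]
  calc |⟪ι x, ι g - ι h⟫_ℝ| ≤ ‖ι x‖ * ‖ι g - ι h‖ := abs_real_inner_le_norm _ _
    _ ≤ 1 * (‖ι g‖ + ‖ι h‖) := by
        gcongr
        · exact norm_iota hk hι x
        · exact norm_sub_le _ _
    _ ≤ 2 := by linarith [norm_iota hk hι g, norm_iota hk hι h]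

include hk hι in
theorem icc_ker (x g h : G) : |k x g - k x h| / 2 ∈ Icc (0 : ℝ) 1 :=
  ⟨by positivity, by linarith [abs_ker_sub_le hk hι x g h]⟩

variable {F : ℕ → Finset G} (hF : IsFolner F)

/-- the averaged quadratic form -/
noncomputable def QF (F : ℕ → Finset G) (ι : G → V) (z : V) : ℝ := mean F fun x => ⟪ι x, z⟫_ℝ ^ 2

include hk hι in
theorem icc_q (x : G) (z : V) : ⟪ι x, z⟫_ℝ ^ 2 ∈ Icc (0 : ℝ) (‖z‖ ^ 2) := by
  refine ⟨sq_nonneg _, ?_⟩
  have h1 := abs_real_inner_le_norm (ι x) z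
  have h2 := norm_iota hk hι x
  have h3 : |⟪ι x, z⟫_ℝ| ≤ ‖z‖ := by nlinarith [norm_nonneg z]
  rw [← sq_abs]
  gcongr

include hk hι hF in
theorem exists_QF_basis {ε : ℝ} (hε : 0 < ε) :
    ∃ (m : ℕ) (e : Fin m → V), (∀ i, ‖e i‖ = 1) ∧
      ∀ z, QF F ι z ≤ 2 * ε * ‖z‖ ^ 2 + 2 * ∑ i, ⟪e i, z⟫_ℝ ^ 2 := by
  have hne := hF.1
  apply exists_trace_basis (B := 1) _ _ _ _ hε
  · intro z
    exact (mean_mem hne fun x => icc_q hk hι x z).2
  · intro x y
    unfold QF
    have e1 : 2 * mean F (fun g => ⟪ι g, x⟫_ℝ ^ 2) + 2 * mean F (fun g => ⟪ι g, y⟫_ℝ ^ 2) =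
        mean F (fun g => 2 * ⟪ι g, x⟫_ℝ ^ 2 + 2 * ⟪ι g, y⟫_ℝ ^ 2) := by
      rw [← mean_mul hne 2 fun g => icc_q hk hι g x, ← mean_mul hne 2 fun g => icc_q hk hι g y,
        ← mean_add hne (a := 0) (b := 2 * ‖x‖ ^ 2) (a' := 0) (b' := 2 * ‖y‖ ^ 2)]
      · intro g
        have := icc_q hk hι g x
        exact ⟨by linarith [this.1], by linarith [this.2]⟩
      · intro g
        have := icc_q hk hι g y
        exact ⟨by linarith [this.1], by linarith [this.2]⟩
    rw [e1]
    apply mean_mono hne (fun g => icc_q hk hι g (x + y)) (a' := 0)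
      (b' := 2 * ‖x‖ ^ 2 + 2 * ‖y‖ ^ 2)
    · intro g
      have h1 := icc_q hk hι g x
      have h2 := icc_q hk hι g y
      exact ⟨by linarith [h1.1, h2.1], by linarith [h1.2, h2.2]⟩
    · intro g
      rw [inner_add_right]
      nlinarith [sq_nonneg (⟪ι g, x⟫_ℝ - ⟪ι g, y⟫_ℝ)]
  · intro c x
    unfold QF
    rw [← mean_mul hne (c ^ 2) fun g => icc_q hk hι g x]
    congr 1
    ext g
    rw [real_inner_smul_right]; ring
  · intro m e he
    unfold QF
    rw [← mean_sum hne Finset.univ (a := fun _ => 0) (b := fun i => ‖e i‖ ^ 2)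
      (fun i x => icc_q hk hι x (e i))]
    refine (mean_mem hne (a := 0) (b := 1) fun x => ⟨Finset.sum_nonneg fun i _ => sq_nonneg _,
      ?_⟩).2
    have h1 := he.sum_inner_products_le (ι x) (s := Finset.univ)
    have h2 := norm_iota hk hι x
    have h3 : ∑ i, ⟪ι x, e i⟫_ℝ ^ 2 = ∑ i, ‖⟪e i, ι x⟫_ℝ‖ ^ 2 := by
      refine Finset.sum_congr rfl fun i _ => ?_
      rw [Real.norm_eq_abs, sq_abs, real_inner_comm]
    rw [h3]
    refine h1.trans ?_
    nlinarith [norm_nonneg (ι x)]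

include hk hι hF in
theorem isLeft_D1 : IsLeft (D1 F k) := by
  have hne := hF.1
  have hicc := fun g h x => icc_ker hk hι x g h
  refine ⟨fun g => ?_, fun g h => ?_, fun g h => ?_, fun g h => ?_, fun g h l => ?_,
    fun t g h => ?_, fun ε hε => ?_⟩
  · unfold D1
    simp only [sub_self, abs_zero, zero_div]
    have := mean_mem hne (f := fun _ => (0 : ℝ)) (a := 0) (b := 0) fun _ => ⟨le_rfl, le_rfl⟩
    exact le_antisymm this.2 this.1
  · exact (mean_mem hne (hicc g h)).1
  · exact (mean_mem hne (hicc g h)).2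
  · unfold D1; simp_rw [abs_sub_comm]
  · unfold D1
    rw [← mean_add hne (hicc g h) (hicc h l)]
    apply mean_mono hne (hicc g l) (a' := 0) (b' := 2)
    · intro x
      have h1 := hicc g h x
      have h2 := hicc h l x
      exact ⟨by linarith [h1.1, h2.1], by linarith [h1.2, h2.2]⟩
    · intro x
      have := abs_sub_le (k x g) (k x h) (k x l)
      linarith
  · unfold D1
    have h1 : ∀ x, |k x (t * g) - k x (t * h)| / 2 =
        (fun y => |k y g - k y h| / 2) (t⁻¹ * x) := by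
      intro x
      simp only
      have e1 := hk.inv t (t⁻¹ * x) g
      have e2 := hk.inv t (t⁻¹ * x) h
      rw [mul_inv_cancel_left] at e1 e2
      rw [e1, e2]
    simp_rw [h1]
    exact mean_left hF (f := fun y => |k y g - k y h| / 2) (C := 1) (fun x => by
      have := hicc g h x
      rw [abs_of_nonneg this.1]; exact this.2) t⁻¹
  · obtain ⟨m, e, he, hQ⟩ := exists_QF_basis hk hι hF (ε := ε ^ 2 / 16) (by positivity)
    set s : ℝ := ε / (2 * (m + 1)) with hs
    have hspos : 0 < s := by positivity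
    set c : G → Fin m → ℤ := fun g i => ⌊⟪e i, ι g⟫_ℝ / s⌋ with hc
    have hfin : (range c).Finite := by
      have hsub : range c ⊆ Set.pi univ fun _ : Fin m => Icc (-⌈1 / s⌉ : ℤ) ⌈1 / s⌉ := by
        rintro _ ⟨g, rfl⟩ i _
        have h1 := abs_real_inner_le_norm (e i) (ι g)
        rw [he i, one_mul] at h1
        have h2 := abs_le.1 (h1.trans (norm_iota hk hι g))
        constructor
        · have h3 : ((-⌈1 / s⌉ : ℤ) : ℝ) ≤ ⟪e i, ι g⟫_ℝ / s := by
            push_cast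
            have h4 := Int.le_ceil (1 / s)
            have h5 : -(1 / s) ≤ ⟪e i, ι g⟫_ℝ / s := by
              rw [← neg_div]
              gcongr
              exact h2.1
            linarith
          exact Int.le_floor.2 h3
        · have h3 : ⟪e i, ι g⟫_ℝ / s ≤ 1 / s := by
            gcongr
            exact h2.2
          exact (Int.floor_le_floor h3).trans (Int.floor_le_ceil _)
      exact (Set.Finite.pi fun _ => Set.finite_Icc _ _).subset hsub
    have := hfin.to_subtype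
    refine ⟨range c, this, fun g => ⟨c g, mem_range_self g⟩, fun g h hgh => ?_⟩
    have hgh' : c g = c h := congrArg Subtype.val hgh
    set z := ι g - ι h with hz
    have hzn : ‖z‖ ^ 2 ≤ 4 := by
      have : ‖z‖ ≤ 2 := by
        calc ‖z‖ ≤ ‖ι g‖ + ‖ι h‖ := norm_sub_le _ _
          _ ≤ 2 := by linarith [norm_iota hk hι g, norm_iota hk hι h]
      nlinarith [norm_nonneg z]
    have hez : ∀ i, ⟪e i, z⟫_ℝ ^ 2 ≤ s ^ 2 := by
      intro i
      have h1 : ⌊⟪e i, ι g⟫_ℝ / s⌋ = ⌊⟪e i, ι h⟫_ℝ / s⌋ := congrFun hgh' i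
      have h2 := Int.abs_sub_lt_one_of_floor_eq_floor h1
      rw [← sub_div, abs_div, abs_of_pos hspos, div_lt_one hspos, ← inner_sub_right] at h2
      rw [← sq_abs]
      gcongr
    have hQz : QF F ι z ≤ ε ^ 2 := by
      refine (hQ z).trans ?_
      have h1 : ∑ i : Fin m, ⟪e i, z⟫_ℝ ^ 2 ≤ m * s ^ 2 := by
        calc _ ≤ ∑ i : Fin m, s ^ 2 := Finset.sum_le_sum fun i _ => hez i
          _ = _ := by simp
      have h2 : (m : ℝ) * s ^ 2 ≤ ε ^ 2 / 4 := by
        rw [hs, div_pow, mul_pow]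
        have hm : (0 : ℝ) ≤ m := m.cast_nonneg
        rw [← mul_div_assoc, div_le_div_iff₀ (by positivity) (by norm_num)]
        have : (m : ℝ) ≤ (m + 1) ^ 2 := by nlinarith
        nlinarith [sq_nonneg ε]
      nlinarith
    unfold D1
    have h1 : mean F (fun x => |k x g - k x h| / 2) ≤
        mean F (fun x => (1 / (4 * ε)) * ⟪ι x, z⟫_ℝ ^ 2 + ε / 4) := by
      apply mean_mono hne (hicc g h) (a' := 0) (b' := (1 / (4 * ε)) * ‖z‖ ^ 2 + ε / 4)
      · intro x
        have h2 := icc_q hk hι x z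
        refine ⟨?_, ?_⟩
        · have := h2.1; positivity
        · have := h2.2; gcongr
      · intro x
        rw [ker_sub hι, ← hz, ← sq_abs ⟪ι x, z⟫_ℝ]
        have h3 : 0 ≤ (|⟪ι x, z⟫_ℝ| - ε) ^ 2 / (4 * ε) := by positivity
        have h4 : (|⟪ι x, z⟫_ℝ| - ε) ^ 2 / (4 * ε) =
            1 / (4 * ε) * |⟪ι x, z⟫_ℝ| ^ 2 + ε / 4 - |⟪ι x, z⟫_ℝ| / 2 := by
          field_simp; ring
        linarith
    refine h1.trans ?_
    rw [mean_add hne (a := 0) (b := (1 / (4 * ε)) * ‖z‖ ^ 2) (a' := ε / 4) (b' := ε / 4)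
      (f' := fun _ => ε / 4) _ (fun _ => ⟨le_rfl, le_rfl⟩),
      mean_mul hne _ (fun x => icc_q hk hι x z)]
    · have h5 : mean F (fun _ => ε / 4) ≤ ε / 4 :=
        (mean_mem hne (a := ε / 4) (b := ε / 4) fun _ => ⟨le_rfl, le_rfl⟩).2
      have h6 : 1 / (4 * ε) * QF F ι z ≤ 1 / (4 * ε) * ε ^ 2 := by gcongr
      have h7 : 1 / (4 * ε) * ε ^ 2 = ε / 4 := by field_simp
      have h8 : mean F (fun x => ⟪ι x, z⟫_ℝ ^ 2) = QF F ι z := rfl
      rw [h8]
      linarith
    · intro x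
      have h2 := icc_q hk hι x z
      refine ⟨?_, ?_⟩
      · have := h2.1; positivity
      · have := h2.2; gcongr

end

/-- **Part II.** If `g₀` is invisible to the totally bounded bi-invariant pseudometrics and no
`M` elements are pairwise `η`-separated for the kernel `k`, then `g₀` is `2η`-close to `1`. -/
theorem small_of_inKer {k : G → G → ℝ} (hk : IsKer k) {F : ℕ → Finset G} (hF : IsFolner F)
    {g₀ : G} (hg₀ : InKer g₀) {M : ℕ} {η : ℝ} (hη : 0 < η)
    (hsep : ∀ S : Finset G, S.card = M → ∃ g ∈ S, ∃ h ∈ S, g ≠ h ∧ dist2 k g h ≤ η ^ 2) :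
    dist2 k g₀ 1 ≤ 4 * η ^ 2 := by
  classical
  obtain ⟨V, _, _, ι, hι⟩ := exists_space hk.symm hk.psd
  have hne := hF.1
  have hicc := fun g h x => icc_ker hk hι x g h
  have hD0 : D1 F k g₀ 1 = 0 := by
    have h1 := (isLeft_D1 hk hι hF)
    have h2 := hg₀ _ h1.sup
    have h3 := h1.le_sup g₀ 1 1
    have h2' : (⨆ t, D1 F k (g₀ * t) (1 * t)) = 0 := h2
    rw [h2', mul_one, mul_one] at h3
    exact le_antisymm h3 (h1.nonneg _ _)
  by_contra hcon
  rw [not_le] at hcon
  set x := ι g₀ - ι 1 with hx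
  have hxn : ‖x‖ ^ 2 = dist2 k g₀ 1 := norm_sub_sq_iota hι _ _
  have hxn2 : 2 * η < ‖x‖ := by
    by_contra h
    rw [not_lt] at h
    nlinarith [norm_nonneg x]
  -- a maximal separated set
  have hmax : ∃ S : Finset G, ∀ g, ∃ h ∈ S, ‖ι g - ι h‖ ≤ η := by
    by_contra hno
    push Not at hno
    have hbuild : ∀ n : ℕ, ∃ S : Finset G, S.card = n ∧
        ∀ g ∈ S, ∀ h ∈ S, g ≠ h → η < ‖ι g - ι h‖ := by
      intro n
      induction n with
      | zero => exact ⟨∅, rfl, by simp⟩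
      | succ n ih =>
        obtain ⟨S, hS, hS2⟩ := ih
        obtain ⟨g, hg⟩ := hno S
        have hgS : g ∉ S := fun h => by
          have := hg g h
          rw [sub_self, norm_zero] at this
          linarith
        refine ⟨insert g S, by rw [Finset.card_insert_of_notMem hgS, hS], ?_⟩
        intro a ha b hb hab
        rcases Finset.mem_insert.1 ha with ha1 | ha1 <;>
          rcases Finset.mem_insert.1 hb with hb1 | hb1
        · exact absurd (ha1.trans hb1.symm) hab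
        · rw [ha1]; exact hg b hb1
        · rw [hb1, norm_sub_rev]; exact hg a ha1
        · exact hS2 a ha1 b hb1 hab
    obtain ⟨S, hS, hS2⟩ := hbuild M
    obtain ⟨g, hg, h, hh, hgh, hle⟩ := hsep S hS
    have h1 := hS2 g hg h hh hgh
    rw [← norm_sub_sq_iota hι] at hle
    nlinarith
  obtain ⟨S, hS⟩ := hmax
  set c : ℝ := (‖x‖ ^ 2 / 2 - η * ‖x‖) / 2 with hc
  have hcpos : 0 < c := by
    rw [hc]
    have := norm_nonneg x
    nlinarith
  have hlow : ∀ g, c ≤ ∑ h ∈ S, |k g (h * g₀) - k g h| / 2 := by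
    intro g
    obtain ⟨h, hh, hgh⟩ := hS g
    have h1 : k h (h * g₀) - k h h = -(‖x‖ ^ 2 / 2) := by
      have e1 := hk.inv h 1 g₀
      rw [mul_one] at e1
      rw [e1, hk.diag h, hxn]
      unfold dist2
      rw [hk.diag g₀, hk.symm g₀ 1]; ring
    have h2 : k g (h * g₀) - k g h = (k h (h * g₀) - k h h) +
        ⟪ι g - ι h, ι (h * g₀) - ι h⟫_ℝ := by
      rw [ker_sub hι, ker_sub hι, inner_sub_left]; ring
    have h3 : ‖ι (h * g₀) - ι h‖ = ‖x‖ := by
      have e1 : ‖ι (h * g₀) - ι h‖ ^ 2 = ‖x‖ ^ 2 := by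
        rw [norm_sub_sq_iota hι, hxn]
        unfold dist2
        have e2 := hk.inv h g₀ 1
        rw [mul_one] at e2
        rw [e2, hk.diag (h * g₀), hk.diag h, hk.diag g₀]
      have e3 := norm_nonneg (ι (h * g₀) - ι h)
      have e4 := norm_nonneg x
      exact (pow_left_inj₀ e3 e4 (by norm_num)).1 e1
    have h4 : ⟪ι g - ι h, ι (h * g₀) - ι h⟫_ℝ ≤ η * ‖x‖ := by
      refine (real_inner_le_norm _ _).trans ?_
      rw [h3]
      gcongr
    have h5 : c ≤ |k g (h * g₀) - k g h| / 2 := by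
      have h6 : k g (h * g₀) - k g h ≤ -(2 * c) := by
        rw [h2, h1, hc]; linarith
      have h7 := neg_abs_le (k g (h * g₀) - k g h)
      linarith
    refine h5.trans ?_
    exact Finset.single_le_sum (f := fun h => |k g (h * g₀) - k g h| / 2)
      (fun i _ => by positivity) hh
  have h1 : mean F (fun g => ∑ h ∈ S, |k g (h * g₀) - k g h| / 2) = 0 := by
    rw [mean_sum hne S (f := fun h g => |k g (h * g₀) - k g h| / 2) (a := fun _ => 0)
      (b := fun _ => 1) (fun h g => hicc (h * g₀) h g)]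
    refine Finset.sum_eq_zero fun h _ => ?_
    have h2 : D1 F k (h * g₀) (h * 1) = 0 := by
      rw [(isLeft_D1 hk hι hF).left, hD0]
    rw [mul_one] at h2
    exact h2
  have h2 : c ≤ mean F (fun g => ∑ h ∈ S, |k g (h * g₀) - k g h| / 2) :=
    (mean_mem hne (a := c) (b := S.card) fun g => ⟨hlow g, by
      calc ∑ h ∈ S, |k g (h * g₀) - k g h| / 2 ≤ ∑ h ∈ S, (1 : ℝ) :=
            Finset.sum_le_sum fun h _ => (hicc (h * g₀) h g).2
        _ = S.card := by simp⟩).1
  rw [h1] at h2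
  linarith

end Q71.SE
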