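import Pool.Agent.Q71.SE.Ker

namespace Q71.SE

open Filter Topology Set
open scoped InnerProductSpace

universe u

variable {G : Type u} [Group G]

theorem IsKer.mem_Icc {k : G → G → ℝ} (hk : IsKer k) (g h : G) : k g h ∈ Icc (-1 : ℝ) 1 := by
  obtain ⟨V, _, _, ι, hι⟩ := exists_space hk.symm hk.psd
  rw [← hι]
  have h1 := abs_real_inner_le_norm (ι g) (ι h)
  have h2 := norm_iota hk hι g
  have h3 := norm_iota hk hι h
  have h4 : |⟪ι g, ι h⟫_ℝ| ≤ 1 := h1.trans (by nlinarith [norm_nonneg (ι g), norm_nonneg (ι h)])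
  exact abs_le.1 h4

/-- **Part III**: finitely many separation conditions suffice. -/
theorem exists_test {F : ℕ → Finset G} (hF : IsFolner F) {g₀ : G} (hg₀ : InKer g₀) (M : ℕ)
    {η : ℝ} (hη : 0 < η) :
    ∃ E : Finset G, ∀ k : G → G → ℝ, IsKer k →
      (∀ S ⊆ E, S.card = M → ∃ g ∈ S, ∃ h ∈ S, g ≠ h ∧ dist2 k g h ≤ η ^ 2) →
      dist2 k g₀ 1 ≤ 9 * η ^ 2 := by
  classical
  by_contra hcon
  push Not at hcon
  choose K hK hKsep hKbig using hcon
  set U : Ultrafilter (Finset G) := Ultrafilter.of atTop with hU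
  have hUle : (U : Filter (Finset G)) ≤ atTop := Ultrafilter.of_le _
  have hlim : ∀ g h, ∃ x, Tendsto (fun E => K E g h) (U : Filter (Finset G)) (𝓝 x) := by
    intro g h
    obtain ⟨x, _, hx⟩ := (isCompact_Icc (a := (-1 : ℝ)) (b := 1)).ultrafilter_le_nhds
      (U.map fun E => K E g h) (by
        rw [le_principal_iff]
        exact Filter.mem_map.2 (Filter.Eventually.of_forall fun E => (hK E).mem_Icc g h))
    exact ⟨x, hx⟩
  choose k hk using hlim
  have hker : IsKer k :=
    { symm := fun g h => tendsto_nhds_unique (hk g h)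
        ((hk h g).congr fun E => ((hK E).symm g h).symm)
      psd := fun s a => by
        have h1 : Tendsto (fun E => ∑ g ∈ s, ∑ h ∈ s, a g * a h * K E g h) (U : Filter _)
            (𝓝 (∑ g ∈ s, ∑ h ∈ s, a g * a h * k g h)) :=
          tendsto_finsetSum _ fun g _ => tendsto_finsetSum _ fun h _ => (hk g h).const_mul _
        exact ge_of_tendsto' h1 fun E => (hK E).psd s a
      inv := fun t g h => tendsto_nhds_unique (hk _ _)
        ((hk g h).congr fun E => ((hK E).inv t g h).symm)
      le_one := le_of_tendsto' (hk 1 1) fun E => (hK E).le_one }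
  have hd : ∀ g h, Tendsto (fun E => dist2 (K E) g h) (U : Filter _) (𝓝 (dist2 k g h)) := by
    intro g h
    unfold dist2
    exact ((hk g g).add (hk h h)).sub ((hk g h).const_mul 2)
  have hsep : ∀ S : Finset G, S.card = M → ∃ g ∈ S, ∃ h ∈ S, g ≠ h ∧ dist2 k g h ≤ η ^ 2 := by
    intro S hS
    by_contra hno
    push Not at hno
    have h1 : ∀ᶠ E in (U : Filter (Finset G)), ∀ g ∈ S, ∀ h ∈ S, g ≠ h →
        η ^ 2 < dist2 (K E) g h := by
      rw [eventually_all_finset]
      intro g hg
      rw [eventually_all_finset]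
      intro h hh
      by_cases hgh : g = h
      · exact Filter.Eventually.of_forall fun E hne => absurd hgh hne
      · filter_upwards [(hd g h).eventually (lt_mem_nhds (hno g hg h hh hgh))] with E hE _
        exact hE
    have h2 : ∀ᶠ E in (U : Filter (Finset G)), S ⊆ E := hUle (eventually_ge_atTop S)
    obtain ⟨E, hE1, hE2⟩ := (h1.and h2).exists
    obtain ⟨g, hg, h, hh, hgh, hle⟩ := hKsep E S hE2 hS
    exact absurd (hE1 g hg h hh hgh) (not_lt.2 hle)
  have h3 := small_of_inKer hker hF hg₀ hη hsep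
  have h4 : 9 * η ^ 2 ≤ dist2 k g₀ 1 := ge_of_tendsto' (hd g₀ 1) fun E => (hKbig E).le
  nlinarith [sq_pos_of_pos hη]

end Q71.SE
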