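import Pool.Agent.Q71.SE.Main
import Pool.Agent.Q71.SE.Test

namespace Q71.SE

open MeasureTheory Filter Topology Set
open scoped ENNReal

variable {G X : Type*} [Group G] [MulAction G X] [MeasurableSpace X]

/-- truncated semimetric, real valued -/
noncomputable def rr (ρ : X → X → ℝ) (x y : X) : ℝ := min (ρ x y) 1

/-- the kernel of an action and a semimetric -/
noncomputable def actKer (μ : Measure X) (ρ : X → X → ℝ) (g h : G) : ℝ :=
  ∫ p, rr ρ (g⁻¹ • p.1) p.2 * rr ρ (h⁻¹ • p.1) p.2 ∂(μ.prod μ)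

theorem rr_nonneg {ρ : X → X → ℝ} (hρ : IsSemimetric ρ) (x y : X) : 0 ≤ rr ρ x y :=
  le_min (hρ.nonneg _ _) zero_le_one

omit [MeasurableSpace X] in
theorem rr_le_one (ρ : X → X → ℝ) (x y : X) : rr ρ x y ≤ 1 := min_le_right _ _

theorem rr_symm {ρ : X → X → ℝ} (hρ : IsSemimetric ρ) (x y : X) : rr ρ x y = rr ρ y x := by
  unfold rr; rw [hρ.symm]

theorem rr_tri {ρ : X → X → ℝ} (hρ : IsSemimetric ρ) (x y z : X) :
    rr ρ x z ≤ rr ρ x y + rr ρ y z :=
  min_tri (hρ.nonneg _ _) (hρ.nonneg _ _) zero_le_one (hρ.triangle _ _ _)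

theorem measurable_rr {ρ : X → X → ℝ} (hρ : IsSemimetric ρ) {Y : Type*} [MeasurableSpace Y]
    {f g : Y → X} (hf : Measurable f) (hg : Measurable g) :
    Measurable fun y => rr ρ (f y) (g y) :=
  (hρ.meas.comp (hf.prodMk hg)).min measurable_const

section

variable [MeasurableConstSMul G X] {μ : Measure X} [IsProbabilityMeasure μ]

theorem measurable_act {ρ : X → X → ℝ} (hρ : IsSemimetric ρ) (g : G) :
    Measurable fun p : X × X => rr ρ (g • p.1) p.2 :=
  measurable_rr hρ (measurable_fst.const_smul g) measurable_snd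

theorem integrable_act {ρ : X → X → ℝ} (hρ : IsSemimetric ρ) (g h : G) :
    Integrable (fun p : X × X => rr ρ (g • p.1) p.2 * rr ρ (h • p.1) p.2) (μ.prod μ) := by
  apply Integrable.of_bound
    ((measurable_act hρ g).mul (measurable_act hρ h)).aestronglyMeasurable 1
  refine Filter.Eventually.of_forall fun p => ?_
  have h1 := rr_nonneg hρ (g • p.1) p.2
  have h2 := rr_nonneg hρ (h • p.1) p.2
  have h3 := rr_le_one ρ (g • p.1) p.2
  have h4 := rr_le_one ρ (h • p.1) p.2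
  change |rr ρ (g • p.1) p.2 * rr ρ (h • p.1) p.2| ≤ 1
  rw [abs_of_nonneg (mul_nonneg h1 h2)]
  nlinarith

theorem actKer_isKer [SMulInvariantMeasure G X μ] {ρ : X → X → ℝ} (hρ : IsSemimetric ρ) :
    IsKer (actKer μ ρ : G → G → ℝ) where
  symm g h := by unfold actKer; simp_rw [mul_comm]
  psd s a := by
    have h1 : ∑ g ∈ s, ∑ h ∈ s, a g * a h * actKer μ ρ g h =
        ∫ p, (∑ g ∈ s, a g * rr ρ (g⁻¹ • p.1) p.2) ^ 2 ∂(μ.prod μ) := by
      have h2 : ∀ p : X × X, (∑ g ∈ s, a g * rr ρ (g⁻¹ • p.1) p.2) ^ 2 =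
          ∑ g ∈ s, ∑ h ∈ s, a g * a h * (rr ρ (g⁻¹ • p.1) p.2 * rr ρ (h⁻¹ • p.1) p.2) := by
        intro p
        rw [pow_two, Finset.sum_mul_sum]
        refine Finset.sum_congr rfl fun g _ => Finset.sum_congr rfl fun h _ => ?_
        ring
      simp_rw [h2]
      rw [integral_finsetSum _ fun g _ => integrable_finsetSum _ fun h _ =>
        (integrable_act hρ _ _).const_mul _]
      refine Finset.sum_congr rfl fun g _ => ?_
      rw [integral_finsetSum _ fun h _ => (integrable_act hρ _ _).const_mul _]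
      refine Finset.sum_congr rfl fun h _ => ?_
      rw [integral_const_mul]
      rfl
    rw [h1]
    exact integral_nonneg fun p => sq_nonneg _
  inv t g h := by
    unfold actKer
    have hmp : MeasurePreserving (fun p : X × X => (t⁻¹ • p.1, p.2)) (μ.prod μ) (μ.prod μ) :=
      (measurePreserving_smul t⁻¹ μ).prod (MeasurePreserving.id μ)
    have h1 := integral_map (μ := μ.prod μ) hmp.measurable.aemeasurable
      (f := fun p : X × X => rr ρ (g⁻¹ • p.1) p.2 * rr ρ (h⁻¹ • p.1) p.2)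
      ((measurable_act hρ g⁻¹).mul (measurable_act hρ h⁻¹)).aestronglyMeasurable
    rw [hmp.map_eq] at h1
    rw [h1]
    simp_rw [mul_inv_rev, mul_smul]
  le_one := by
    unfold actKer
    have h1 : ∫ p, rr ρ ((1 : G)⁻¹ • p.1) p.2 * rr ρ ((1 : G)⁻¹ • p.1) p.2 ∂(μ.prod μ) ≤
        ∫ _ : X × X, (1 : ℝ) ∂(μ.prod μ) := by
      apply integral_mono (integrable_act hρ _ _) (integrable_const _)
      intro p
      have h1 := rr_nonneg hρ ((1 : G)⁻¹ • p.1) p.2
      have h3 := rr_le_one ρ ((1 : G)⁻¹ • p.1) p.2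
      simp only
      nlinarith
    refine h1.trans ?_
    simp

theorem actKer_dist2 {ρ : X → X → ℝ} (hρ : IsSemimetric ρ) (g h : G) :
    dist2 (actKer μ ρ) g h =
      ∫ p, (rr ρ (g⁻¹ • p.1) p.2 - rr ρ (h⁻¹ • p.1) p.2) ^ 2 ∂(μ.prod μ) := by
  have h2 : ∀ p : X × X, (rr ρ (g⁻¹ • p.1) p.2 - rr ρ (h⁻¹ • p.1) p.2) ^ 2 =
      (rr ρ (g⁻¹ • p.1) p.2 * rr ρ (g⁻¹ • p.1) p.2 +
        rr ρ (h⁻¹ • p.1) p.2 * rr ρ (h⁻¹ • p.1) p.2) -
      2 * (rr ρ (g⁻¹ • p.1) p.2 * rr ρ (h⁻¹ • p.1) p.2) := fun p => by ring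
  simp_rw [h2]
  have i1 := integrable_act (μ := μ) hρ g⁻¹ g⁻¹
  have i2 := integrable_act (μ := μ) hρ h⁻¹ h⁻¹
  have i3 := (integrable_act (μ := μ) hρ g⁻¹ h⁻¹).const_mul 2
  have i12 : Integrable (fun p : X × X => rr ρ (g⁻¹ • p.1) p.2 * rr ρ (g⁻¹ • p.1) p.2 +
      rr ρ (h⁻¹ • p.1) p.2 * rr ρ (h⁻¹ • p.1) p.2) (μ.prod μ) := i1.add i2
  rw [integral_sub i12 i3, integral_add i1 i2, integral_const_mul]
  rfl

theorem integrable_sq {ρ : X → X → ℝ} (hρ : IsSemimetric ρ) (g h : G) :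
    Integrable (fun p : X × X => (rr ρ (g • p.1) p.2 - rr ρ (h • p.1) p.2) ^ 2) (μ.prod μ) := by
  apply Integrable.of_bound
    (((measurable_act hρ g).sub (measurable_act hρ h)).pow_const 2).aestronglyMeasurable 1
  refine Filter.Eventually.of_forall fun p => ?_
  have h1 := rr_nonneg hρ (g • p.1) p.2
  have h2 := rr_nonneg hρ (h • p.1) p.2
  have h3 := rr_le_one ρ (g • p.1) p.2
  have h4 := rr_le_one ρ (h • p.1) p.2
  change |(rr ρ (g • p.1) p.2 - rr ρ (h • p.1) p.2) ^ 2| ≤ 1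
  rw [abs_of_nonneg (sq_nonneg _)]
  have h5 : 0 ≤ (1 - rr ρ (g • p.1) p.2 + rr ρ (h • p.1) p.2) *
    (1 + rr ρ (g • p.1) p.2 - rr ρ (h • p.1) p.2) := mul_nonneg (by linarith) (by linarith)
  nlinarith

theorem actKer_dist2_le {ρ : X → X → ℝ} (hρ : IsSemimetric ρ) (g h : G) :
    ENNReal.ofReal (dist2 (actKer μ ρ) g h) ≤ D μ ρ g⁻¹ h⁻¹ := by
  rw [actKer_dist2 hρ, ofReal_integral_eq_lintegral_ofReal (integrable_sq hρ _ _)
    (Filter.Eventually.of_forall fun p => sq_nonneg _)]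
  have hm : Measurable fun p : X × X => R ρ (g⁻¹ • p.1) (h⁻¹ • p.1) :=
    measurable_R hρ (measurable_fst.const_smul _) (measurable_fst.const_smul _)
  calc ∫⁻ p : X × X, ENNReal.ofReal ((rr ρ (g⁻¹ • p.1) p.2 - rr ρ (h⁻¹ • p.1) p.2) ^ 2)
        ∂(μ.prod μ) ≤ ∫⁻ p : X × X, R ρ (g⁻¹ • p.1) (h⁻¹ • p.1) ∂(μ.prod μ) := by
        apply lintegral_mono
        intro p
        unfold R
        apply ENNReal.ofReal_le_ofReal
        change _ ≤ rr ρ (g⁻¹ • p.1) (h⁻¹ • p.1)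
        have h1 := rr_nonneg hρ (g⁻¹ • p.1) p.2
        have h2 := rr_nonneg hρ (h⁻¹ • p.1) p.2
        have h3 := rr_le_one ρ (g⁻¹ • p.1) p.2
        have h4 := rr_le_one ρ (h⁻¹ • p.1) p.2
        have h5 := rr_tri hρ (g⁻¹ • p.1) (h⁻¹ • p.1) p.2
        have h6 := rr_tri hρ (h⁻¹ • p.1) (g⁻¹ • p.1) p.2
        rw [rr_symm hρ (h⁻¹ • p.1) (g⁻¹ • p.1)] at h6
        have h7 : |rr ρ (g⁻¹ • p.1) p.2 - rr ρ (h⁻¹ • p.1) p.2| ≤
            rr ρ (g⁻¹ • p.1) (h⁻¹ • p.1) := abs_le.2 ⟨by linarith, by linarith⟩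
        have h8 : |rr ρ (g⁻¹ • p.1) p.2 - rr ρ (h⁻¹ • p.1) p.2| ≤ 1 :=
          abs_le.2 ⟨by linarith, by linarith⟩
        rw [← sq_abs]
        nlinarith [abs_nonneg (rr ρ (g⁻¹ • p.1) p.2 - rr ρ (h⁻¹ • p.1) p.2)]
    _ = ∫⁻ x, ∫⁻ _, R ρ (g⁻¹ • x) (h⁻¹ • x) ∂μ ∂μ := lintegral_prod _ hm.aemeasurable
    _ = D μ ρ g⁻¹ h⁻¹ := by unfold D; simp

theorem D_eq_zero_of_dist2 {ρ : X → X → ℝ} (hρ : IsSemimetric ρ) (hadm : IsAdmissible μ ρ)
    {t : G} (h : dist2 (actKer μ ρ) t 1 = 0) : D μ ρ 1 t⁻¹ = 0 := by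
  rw [actKer_dist2 hρ, integral_eq_zero_iff_of_nonneg (fun p => sq_nonneg _)
    (integrable_sq hρ _ _)] at h
  have h1 : ∀ᵐ x ∂μ, ∀ᵐ y ∂μ, rr ρ (t⁻¹ • x) y = rr ρ x y := by
    have h2 := Measure.ae_ae_of_ae_prod h
    filter_upwards [h2] with x hx
    filter_upwards [hx] with y hy
    have h3 : (rr ρ (t⁻¹ • x) y - rr ρ ((1 : G)⁻¹ • x) y) ^ 2 = 0 := hy
    have h4 := pow_eq_zero_iff (two_ne_zero) |>.1 h3
    rw [inv_one, one_smul] at h4
    linarith
  have key : ∀ ε : ℝ, 0 < ε → D μ ρ 1 t⁻¹ ≤ 3 * ENNReal.ofReal ε := by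
    intro ε hε
    obtain ⟨L, Z, C, hZ, hC, huniv, hμZ, hdiam⟩ : ∃ L, HasCover μ ρ ε L := by
      have h1 := hadm ε hε
      unfold epsEntropy at h1
      simp only [iInf_lt_iff] at h1
      obtain ⟨L, _, hL, _⟩ := h1
      exact ⟨L, hL⟩
    have h5 : ∀ᵐ x ∂μ, ∀ i, μ (C i) = 0 → x ∉ C i := by
      rw [ae_all_iff]
      intro i
      by_cases hi : μ (C i) = 0
      · have : ∀ᵐ x ∂μ, x ∉ C i := measure_eq_zero_iff_ae_notMem.1 hi
        filter_upwards [this] with x hx _ using hx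
      · exact Filter.Eventually.of_forall fun x h => absurd h hi
    have h6 : ∀ᵐ x ∂μ, R ρ ((1 : G) • x) (t⁻¹ • x) ≤
        Z.indicator 1 x + 2 * ENNReal.ofReal ε := by
      filter_upwards [h1, h5] with x hx hx2
      by_cases hxZ : x ∈ Z
      · rw [indicator_of_mem hxZ]
        exact (R_le_one _ _ _).trans le_self_add
      · have h7 : x ∈ Z ∪ ⋃ i, C i := by rw [huniv]; trivial
        obtain ⟨i, hi⟩ := mem_iUnion.1 (h7.resolve_left hxZ)
        have hpos : μ (C i) ≠ 0 := fun h0 => hx2 i h0 hi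
        obtain ⟨y, hy, hy2⟩ : ∃ y ∈ C i, rr ρ (t⁻¹ • x) y = rr ρ x y := by
          by_contra hno
          push Not at hno
          apply hpos
          have h8 : μ {y | ¬ rr ρ (t⁻¹ • x) y = rr ρ x y} = 0 := hx
          exact measure_mono_null (fun y hy => hno y hy) h8
        have h9 : rr ρ x y ≤ ε := by
          have h10 : ENNReal.ofReal (ρ x y) ≤ diamOf ρ (C i) := by
            unfold diamOf
            exact (le_iSup₂_of_le y hy le_rfl).trans
              (le_iSup₂_of_le (f := fun x _ => ⨆ y ∈ C i, ENNReal.ofReal (ρ x y)) x hi le_rfl)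
          have h11 := h10.trans (hdiam i).le
          rw [ENNReal.ofReal_le_ofReal_iff hε.le] at h11
          exact (min_le_left _ _).trans h11
        have h12 : rr ρ ((1 : G) • x) (t⁻¹ • x) ≤ 2 * ε := by
          rw [one_smul]
          have h13 := rr_tri hρ x y (t⁻¹ • x)
          rw [rr_symm hρ y (t⁻¹ • x), hy2] at h13
          linarith
        have h14 : R ρ ((1 : G) • x) (t⁻¹ • x) ≤ 2 * ENNReal.ofReal ε := by
          have e2 : (2 : ℝ≥0∞) = ENNReal.ofReal 2 := by simp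
          rw [e2, ← ENNReal.ofReal_mul (by norm_num)]
          exact ENNReal.ofReal_le_ofReal h12
        exact h14.trans le_add_self
    calc D μ ρ 1 t⁻¹ ≤ ∫⁻ x, Z.indicator 1 x + 2 * ENNReal.ofReal ε ∂μ := lintegral_mono_ae h6
      _ = μ Z + 2 * ENNReal.ofReal ε := by
          rw [lintegral_add_right _ measurable_const, lintegral_indicator_one hZ]
          simp
      _ ≤ ENNReal.ofReal ε + 2 * ENNReal.ofReal ε := by gcongr
      _ = _ := by ring
  by_contra hne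
  have hpos : 0 < D μ ρ 1 t⁻¹ := pos_iff_ne_zero.2 hne
  have hfin : D μ ρ 1 t⁻¹ ≠ ∞ := ne_top_of_le_ne_top (by simp) (key 1 one_pos)
  have hr : 0 < (D μ ρ 1 t⁻¹).toReal := ENNReal.toReal_pos hne hfin
  have h15 := key ((D μ ρ 1 t⁻¹).toReal / 4) (by positivity)
  have e3 : (3 : ℝ≥0∞) = ENNReal.ofReal 3 := by simp
  rw [e3, ← ENNReal.ofReal_mul (by norm_num)] at h15
  have h16 := ENNReal.toReal_mono ENNReal.ofReal_ne_top h15
  rw [ENNReal.toReal_ofReal (by positivity)] at h16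
  linarith

open Classical in
theorem exists_close [SMulInvariantMeasure G X μ]
    {ρ : X → X → ℝ} (hρ : IsSemimetric ρ) (F : Finset G) (hFne : F.Nonempty) {δ : ℝ}
    (hδ : 0 < δ) {K L : ℕ} (hK : HasCover μ (avg F ρ) δ K) (hL : HasCover μ ρ δ L)
    (S : Finset G) (hS : 2 * (L + 1) ^ K < S.card)
    (hF : ∀ s ∈ S, 16 * (F.filter fun g => s⁻¹ * g ∉ F).card ≤ F.card) :
    ∃ s ∈ S, ∃ s' ∈ S, s ≠ s' ∧ D μ ρ s⁻¹ s'⁻¹ ≤ ENNReal.ofReal (66 * δ) := by
  obtain ⟨c, w, hw, hc⟩ := exists_classes μ hρ F hK hL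
  set θ : ℝ≥0∞ := ENNReal.ofReal (32 * δ) with hθ
  set Bad : Finset G := F.filter fun g => ¬ (w g ≤ θ) with hBad
  have hBadc : 16 * Bad.card ≤ F.card := by
    have h1 : Bad.card * θ ≤ ∑ g ∈ F, w g := by
      calc (Bad.card : ℝ≥0∞) * θ = ∑ g ∈ Bad, θ := by rw [Finset.sum_const, nsmul_eq_mul]
        _ ≤ ∑ g ∈ Bad, w g := Finset.sum_le_sum fun g hg => by
            have := (Finset.mem_filter.1 hg).2
            exact (not_le.1 this).le
        _ ≤ ∑ g ∈ F, w g := Finset.sum_le_sum_of_subset (Finset.filter_subset _ _)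
    have h2 : (Bad.card : ℝ≥0∞) * θ ≤ 2 * ENNReal.ofReal δ * F.card := h1.trans hw
    have h3 : ENNReal.ofReal (Bad.card * (32 * δ)) ≤ ENNReal.ofReal (2 * δ * F.card) := by
      have e1 : ENNReal.ofReal (Bad.card * (32 * δ)) = Bad.card * θ := by
        rw [hθ, ENNReal.ofReal_mul (by positivity), ENNReal.ofReal_natCast]
      have e2 : ENNReal.ofReal (2 * δ * F.card) = 2 * ENNReal.ofReal δ * F.card := by
        rw [ENNReal.ofReal_mul (by positivity), ENNReal.ofReal_mul (by norm_num),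
          ENNReal.ofReal_natCast]
        simp
      rw [e1, e2]; exact h2
    rw [ENNReal.ofReal_le_ofReal_iff (by positivity)] at h3
    have h4 : (16 * (Bad.card : ℝ)) ≤ F.card := by nlinarith
    exact_mod_cast h4
  set P : G → G → Prop := fun s g => ¬ (s⁻¹ * g ∈ F ∧ w (s⁻¹ * g) ≤ θ) with hP
  have hcount : ∀ s ∈ S, 8 * (F.filter fun g => P s g).card ≤ F.card := by
    intro s hs
    have h1 : (F.filter fun g => P s g) ⊆ (F.filter fun g => s⁻¹ * g ∉ F) ∪
        (F.filter fun g => s⁻¹ * g ∈ Bad) := by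
      intro g hg
      rw [Finset.mem_filter] at hg
      rw [Finset.mem_union, Finset.mem_filter, Finset.mem_filter]
      by_cases h2 : s⁻¹ * g ∈ F
      · right
        refine ⟨hg.1, ?_⟩
        rw [hBad, Finset.mem_filter]
        exact ⟨h2, fun h3 => hg.2 ⟨h2, h3⟩⟩
      · left; exact ⟨hg.1, h2⟩
    have h2 : (F.filter fun g => s⁻¹ * g ∈ Bad).card ≤ Bad.card := by
      apply Finset.card_le_card_of_injOn (fun g => s⁻¹ * g)
      · intro g hg
        exact (Finset.mem_filter.1 hg).2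
      · intro g _ h _ hgh
        exact mul_left_cancel hgh
    have h3 := (Finset.card_le_card h1).trans (Finset.card_union_le _ _)
    have h4 := hF s hs
    omega
  obtain ⟨g, hg, hgb⟩ : ∃ g ∈ F, 8 * (S.filter fun s => P s g).card ≤ S.card := by
    simp only [Finset.card_filter]
    apply Finset.exists_le_of_sum_le hFne
    rw [← Finset.mul_sum, Finset.sum_comm]
    have h1 : ∀ s ∈ S, 8 * ∑ g ∈ F, (if P s g then 1 else 0) ≤ F.card := by
      intro s hs
      have := hcount s hs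
      rwa [Finset.card_filter] at this
    have h2 := Finset.sum_le_sum h1
    rw [← Finset.mul_sum, Finset.sum_const, smul_eq_mul] at h2
    rw [Finset.sum_const, smul_eq_mul]
    linarith
  set S' : Finset G := S.filter fun s => ¬ P s g with hS'
  have hS'card : 7 * S.card ≤ 8 * S'.card := by
    have h1 : S ⊆ (S.filter fun s => P s g) ∪ S' := by
      intro s hs
      rw [Finset.mem_union, Finset.mem_filter, hS', Finset.mem_filter]
      by_cases h : P s g
      · exact Or.inl ⟨hs, h⟩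
      · exact Or.inr ⟨hs, h⟩
    have h2 := (Finset.card_le_card h1).trans (Finset.card_union_le _ _)
    omega
  obtain ⟨s, hs, s', hs', hne, heq⟩ := Finset.exists_ne_map_eq_of_card_lt_of_maps_to
    (s := S') (t := (Finset.univ : Finset (Fin K → Option (Fin L))))
    (f := fun s => c (s⁻¹ * g)) (by
      have h1 : (Finset.univ : Finset (Fin K → Option (Fin L))).card =
          (L + 1) ^ K := by
        rw [Finset.card_univ]
        simp only [Fintype.card_pi, Fintype.card_option, Fintype.card_fin, Finset.prod_const,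
          Finset.card_univ]
      rw [h1]
      have h2 : 0 < (L + 1) ^ K := by positivity
      omega) (fun _ _ => Finset.mem_univ _)
  have hsS := Finset.mem_filter.1 hs
  have hsS' := Finset.mem_filter.1 hs'
  refine ⟨s, hsS.1, s', hsS'.1, hne, ?_⟩
  have h1 := hc _ _ heq
  have h2 : w (s⁻¹ * g) ≤ θ := by
    have := hsS.2
    simp only [hP, not_not] at this
    exact this.2
  have h3 : w (s'⁻¹ * g) ≤ θ := by
    have := hsS'.2
    simp only [hP, not_not] at this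
    exact this.2
  rw [D_right hρ] at h1
  refine h1.trans ?_
  calc 2 * ENNReal.ofReal δ + w (s⁻¹ * g) + w (s'⁻¹ * g) ≤
      2 * ENNReal.ofReal δ + θ + θ := by gcongr
    _ = ENNReal.ofReal (66 * δ) := by
        rw [hθ, ENNReal.ofReal_mul (by norm_num), ENNReal.ofReal_mul (by norm_num)]
        have e1 : ENNReal.ofReal 32 = 32 := by simp
        have e2 : ENNReal.ofReal 66 = 66 := by simp
        rw [e1, e2]; ring

end

end Q71.SE
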