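import Pool.Agent.Q71.SE.Defs

namespace Q71.SE

open Filter Topology Set

variable {A : Type*} [Group A]

namespace Lamplighter

theorem ext' {x y : Lamplighter A} (h1 : ∀ i, x.lamp i = y.lamp i) (h2 : x.pos = y.pos) : x = y :=
  Lamplighter.ext (funext h1) h2

theorem finite_shift {f : ℤ → A} (hf : {i | f i ≠ 1}.Finite) (s : ℤ) :
    {i | f (i - s) ≠ 1}.Finite := by
  apply (hf.image fun i => i + s).subset
  intro i hi
  exact ⟨i - s, hi, by simp⟩

/-- `(f, s) (g, t) = (f · g(· - s), s + t)` -/
instance : Mul (Lamplighter A) :=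
  ⟨fun x y => ⟨fun i => x.lamp i * y.lamp (i - x.pos),
    (x.fin.union (finite_shift y.fin x.pos)).subset fun i hi => by
      by_contra h
      simp only [mem_union, mem_ofPred_eq, not_or, not_not] at h
      exact hi (by rw [h.1, h.2, mul_one]),
    x.pos + y.pos⟩⟩

instance : One (Lamplighter A) := ⟨⟨fun _ => 1, by simp, 0⟩⟩

instance : Inv (Lamplighter A) :=
  ⟨fun x => ⟨fun i => (x.lamp (i + x.pos))⁻¹, by
    apply (finite_shift x.fin (-x.pos)).subset
    intro i hi
    simpa using hi, -x.pos⟩⟩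

@[simp] theorem mul_lamp (x y : Lamplighter A) (i : ℤ) :
    (x * y).lamp i = x.lamp i * y.lamp (i - x.pos) := rfl
@[simp] theorem mul_pos (x y : Lamplighter A) : (x * y).pos = x.pos + y.pos := rfl
@[simp] theorem one_lamp (i : ℤ) : (1 : Lamplighter A).lamp i = 1 := rfl
@[simp] theorem one_pos : (1 : Lamplighter A).pos = 0 := rfl
@[simp] theorem inv_lamp (x : Lamplighter A) (i : ℤ) : (x⁻¹).lamp i = (x.lamp (i + x.pos))⁻¹ := rfl
@[simp] theorem inv_pos (x : Lamplighter A) : (x⁻¹).pos = -x.pos := rfl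

instance : Group (Lamplighter A) :=
  Group.ofLeftAxioms
    (fun x y z => ext' (fun i => by simp [mul_assoc, sub_sub]) (by simp [add_assoc]))
    (fun x => ext' (fun i => by simp) (by simp))
    (fun x => ext' (fun i => by simp) (by simp))

end Lamplighter

end Q71.SE
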