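import Pool.Agent.Q71.SE.Pigeon

namespace Q71.SE

open MeasureTheory Filter Topology Set
open scoped ENNReal

section

variable {G X : Type*} [Group G] [MulAction G X] [MeasurableSpace X] [MeasurableConstSMul G X]

theorem exists_pos_D (μ : Measure X) [IsProbabilityMeasure μ] [SMulInvariantMeasure G X μ]
    [Countable G] {ρ : X → X → ℝ} (hρ : IsSemimetric ρ) (hgen : IsGenerating G μ ρ) {c : G}
    (hfree : ∀ᵐ x ∂μ, c • x ≠ x) : ∃ g : G, D μ ρ 1 (g * c * g⁻¹) ≠ 0 := by
  by_contra hcon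
  push Not at hcon
  obtain ⟨X', hX', hX'2⟩ := hgen
  have h1 : ∀ᵐ x ∂μ, ∀ g : G, R ρ (g • x) ((g * c) • x) = 0 := by
    rw [ae_all_iff]
    intro g
    have h2 : D μ ρ g (g * c) = 0 := by
      rw [← D_right hρ g (g * c) g⁻¹, mul_inv_cancel]
      exact hcon g
    unfold D at h2
    rw [lintegral_eq_zero_iff (measurable_R hρ (measurable_const_smul _)
      (measurable_const_smul _))] at h2
    filter_upwards [h2] with x hx using hx
  have h3 : ∀ᵐ x ∂μ, c • x ∈ X' :=
    (measurePreserving_smul c μ).quasiMeasurePreserving.ae hX'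
  obtain ⟨x, hx1, hx2, hx3, hx4⟩ := (h1.and (hX'.and (h3.and hfree))).exists
  obtain ⟨g, hg⟩ := hX'2 x hx2 _ hx3 (Ne.symm hx4)
  have h4 := hx1 g
  unfold R at h4
  rw [ENNReal.ofReal_eq_zero, mul_smul] at h4
  have h5 : 0 < min (ρ (g • x) (g • c • x)) 1 := lt_min hg one_pos
  linarith

end

open Classical in
theorem folner_eventually {G : Type*} [Group G] {F : ℕ → Finset G} (hF : IsFolner F) (e : G) :
    ∀ᶠ n in atTop, 16 * ((F n).filter fun g => e * g ∉ F n).card ≤ (F n).card := by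
  have h1 := hF.2 e
  have h2 : ∀ᶠ n in atTop, ((symmDiff ((F n).image (fun g => e * g)) (F n)).card : ℝ) /
      (F n).card < 1 / 16 := h1.eventually (gt_mem_nhds (by norm_num))
  filter_upwards [h2] with n hn
  have hpos : (0 : ℝ) < (F n).card := by exact_mod_cast (hF.1 n).card_pos
  rw [div_lt_iff₀ hpos] at hn
  have h3 : ((F n).filter fun g => e * g ∉ F n).card ≤
      (symmDiff ((F n).image (fun g => e * g)) (F n)).card := by
    apply Finset.card_le_card_of_injOn (fun g => e * g)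
    · intro g hg
      have hg' := Finset.mem_filter.1 hg
      rw [Finset.mem_coe, Finset.mem_symmDiff]
      left
      exact ⟨Finset.mem_image_of_mem _ hg'.1, hg'.2⟩
    · intro g _ h _ hgh
      exact mul_left_cancel hgh
  have h4 : (((F n).filter fun g => e * g ∉ F n).card : ℝ) ≤
      (symmDiff ((F n).image (fun g => e * g)) (F n)).card := by exact_mod_cast h3
  have h5 : 16 * (((F n).filter fun g => e * g ∉ F n).card : ℝ) ≤ (F n).card := by linarith
  exact_mod_cast h5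

theorem num_bound {K L k : ℕ} (hK : K < 2 ^ k) (hk : 4 * L + 2 ≤ k) :
    2 * (L + 1) ^ (4 * K) < 2 ^ (4 ^ k) := by
  have h1 : L + 1 ≤ 2 ^ L := Nat.lt_two_pow_self
  have h2 : k < 2 ^ k := Nat.lt_two_pow_self
  have h3 : (4 : ℕ) ^ k = 2 ^ k * 2 ^ k := by rw [← mul_pow]; norm_num
  calc 2 * (L + 1) ^ (4 * K) ≤ 2 * (2 ^ L) ^ (4 * K) := by gcongr
    _ = 2 ^ (1 + L * (4 * K)) := by rw [← pow_mul, pow_add, pow_one]
    _ < 2 ^ (4 ^ k) := by
        apply Nat.pow_lt_pow_right (by norm_num)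
        rw [h3]
        have h4 : L * (4 * K) ≤ 4 * L * 2 ^ k := by nlinarith [Nat.zero_le L]
        nlinarith

open Classical in
/-- **General growth gap.** A countable group with elements `a, b, σ` such that `a, b` do not
commute but `σ^{-m} a σ^m` commutes with `b` for all `m ≥ 1`: every Folner sequence admits a
universal lower bound tending to infinity. -/
theorem gap_of_commutator {G : Type*} [Group G] [Countable G] {a b σ : G} (hab : a * b ≠ b * a)
    (hσ : ∀ m : ℕ, 1 ≤ m → (σ ^ m)⁻¹ * a * σ ^ m * b = b * ((σ ^ m)⁻¹ * a * σ ^ m))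
    {F : ℕ → Finset G} (hF : IsFolner F) :
    ∃ φ : ℕ → ℕ, Tendsto φ atTop atTop ∧ IsUniversalLowerBound G F φ := by
  obtain ⟨e, he⟩ := exists_surjective_nat G
  set B : ℕ → Fin 4 → G := fun j => ![1, e j * a * (e j)⁻¹, e j * b * (e j)⁻¹,
    e j * b * (e j)⁻¹ * (e j * a * (e j)⁻¹)] with hB
  set S : ℕ → G := fun j => e j * σ * (e j)⁻¹ with hS
  set P : ℕ → ℕ → Prop := fun k n => ∀ j ∈ Finset.range (k + 1), ∀ q : Fin 4,
    ∀ i ∈ Finset.range (2 ^ (4 ^ k)),
      16 * ((F n).filter fun g => B j q * (S j) ^ i * g ∉ F n).card ≤ (F n).card with hP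
  have hPev : ∀ k, ∀ᶠ n in atTop, P k n := by
    intro k
    simp only [hP]
    rw [eventually_all_finset]
    intro j _
    rw [eventually_all]
    intro q
    rw [eventually_all_finset]
    intro i _
    exact folner_eventually hF _
  set φ : ℕ → ℕ := fun n => Nat.findGreatest (fun k => P k n) n with hφ
  have hφ1 : Tendsto φ atTop atTop := by
    rw [tendsto_atTop]
    intro k
    filter_upwards [hPev k, eventually_ge_atTop k] with n hn hkn
    exact Nat.le_findGreatest hkn hn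
  have hφ2 : ∀ᶠ n in atTop, P (φ n) n := by
    filter_upwards [hPev 0] with n hn
    exact Nat.findGreatest_spec (P := fun k => P k n) (Nat.zero_le n) hn
  refine ⟨φ, hφ1, ?_⟩
  intro X _ _ _ _ μ _ _ hfree ρ hρ _ hadm hgen
  set c : G := a * b * a⁻¹ * b⁻¹ with hc
  have hc1 : c ≠ 1 := by
    intro h
    apply hab
    calc a * b = c * (b * a) := by rw [hc]; group
      _ = b * a := by rw [h, one_mul]
  obtain ⟨g, hg⟩ := exists_pos_D μ hρ hgen (hfree c hc1)
  obtain ⟨j, hj⟩ := he g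
  set r : ℝ≥0∞ := D μ ρ 1 (g * c * g⁻¹) with hr
  have hr1 : r ≤ 1 := by
    rw [hr]; unfold D
    calc ∫⁻ x, R ρ _ _ ∂μ ≤ ∫⁻ x, 1 ∂μ := lintegral_mono fun x => R_le_one _ _ _
      _ = 1 := by simp
  have hrtop : r ≠ ∞ := ne_top_of_le_ne_top ENNReal.one_ne_top hr1
  have hrpos : 0 < r.toReal := ENNReal.toReal_pos hg hrtop
  set δ : ℝ := r.toReal / 265 with hδ
  have hδpos : 0 < δ := by positivity
  have hδr : 4 * ENNReal.ofReal (66 * δ) < r := by
    have e4 : (4 : ℝ≥0∞) = ENNReal.ofReal 4 := by simp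
    rw [e4, ← ENNReal.ofReal_mul (by norm_num)]
    rw [ENNReal.ofReal_lt_iff_lt_toReal (by positivity) hrtop]
    rw [hδ]; linarith
  obtain ⟨L, hL⟩ : ∃ L, HasCover μ ρ δ L := by
    have h1 := hadm δ hδpos
    unfold epsEntropy at h1
    simp only [iInf_lt_iff] at h1
    obtain ⟨L, _, hL, _⟩ := h1
    exact ⟨L, hL⟩
  intro _ _
  refine ⟨δ, hδpos, ?_⟩
  have key : ∀ᶠ n in atTop, (φ n : ℝ≥0∞) ≤ scal μ F ρ n δ := by
    filter_upwards [hφ2, hφ1.eventually_ge_atTop j, hφ1.eventually_ge_atTop (4 * L + 2)]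
      with n hn hjn hLn
    unfold scal epsEntropy
    refine le_iInf fun K => le_iInf fun hK0 => le_iInf fun hK => ?_
    have hK2 : 2 ^ (φ n) ≤ K := by
      by_contra hcon
      rw [not_le] at hcon
      obtain ⟨m, hm, hm2⟩ := exists_shift μ hρ (F n) (hF.1 n) hδpos hK hL (B j) (S j)
        (2 ^ (4 ^ (φ n))) (num_bound hcon hLn)
        (fun q i hi => hn j (Finset.mem_range.2 (by omega)) q i (Finset.mem_range.2 hi))
      have h0 := hm2 0
      have h1 := hm2 1
      have h2 := hm2 2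
      have h3 := hm2 3
      have e0 : B j 0 = 1 := rfl
      have e1 : B j 1 = g * a * g⁻¹ := by rw [← hj]; rfl
      have e2 : B j 2 = g * b * g⁻¹ := by rw [← hj]; rfl
      have e3 : B j 3 = g * b * g⁻¹ * (g * a * g⁻¹) := by rw [← hj]; rfl
      have eS : S j ^ m = g * σ ^ m * g⁻¹ := by rw [hS]; simp only; rw [hj, conj_pow]
      rw [e0, eS] at h0
      rw [e1, eS] at h1
      rw [e2, eS] at h2
      rw [e3, eS] at h3
      have hcomm : (g * σ ^ m * g⁻¹)⁻¹ * (g * a * g⁻¹) * (g * σ ^ m * g⁻¹) * (g * b * g⁻¹) =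
          (g * b * g⁻¹) * ((g * σ ^ m * g⁻¹)⁻¹ * (g * a * g⁻¹) * (g * σ ^ m * g⁻¹)) := by
        calc _ = g * ((σ ^ m)⁻¹ * a * σ ^ m * b) * g⁻¹ := by group
          _ = g * (b * ((σ ^ m)⁻¹ * a * σ ^ m)) * g⁻¹ := by rw [hσ m hm]
          _ = _ := by group
      have h4 := comm_estimate hρ hcomm h0 h1 h2 h3
      have h5 : g * a * g⁻¹ * (g * b * g⁻¹) * (g * a * g⁻¹)⁻¹ * (g * b * g⁻¹)⁻¹ =
          g * c * g⁻¹ := by rw [hc]; group
      rw [h5] at h4
      exact absurd (h4.trans_lt hδr) (lt_irrefl _)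
    have h6 : (φ n : ℝ) ≤ Real.logb 2 K := by
      rw [Real.le_logb_iff_rpow_le (by norm_num) (by exact_mod_cast hK0), Real.rpow_natCast]
      exact_mod_cast hK2
    rw [← ENNReal.ofReal_natCast]
    exact ENNReal.ofReal_le_ofReal h6
  have h7 : limsup (fun n => (φ n : ℝ≥0∞) / scal μ F ρ n δ) atTop ≤ 1 := by
    apply limsup_le_of_le (by isBoundedDefault)
    filter_upwards [key] with n hn
    exact ENNReal.div_le_of_le_mul (by rw [one_mul]; exact hn)
  exact h7.trans_lt ENNReal.one_lt_top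

end Q71.SE
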