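import Pool.Agent.Q71.SE.Classes

namespace Q71.SE

open MeasureTheory Filter Topology Set
open scoped ENNReal

variable {G X : Type*} [Group G] [MulAction G X] [MeasurableSpace X] [MeasurableConstSMul G X]

open Classical in
theorem exists_shift (μ : Measure X) [IsProbabilityMeasure μ] [SMulInvariantMeasure G X μ]
    {ρ : X → X → ℝ} (hρ : IsSemimetric ρ) (F : Finset G) (hFne : F.Nonempty) {δ : ℝ}
    (hδ : 0 < δ) {K L : ℕ} (hK : HasCover μ (avg F ρ) δ K) (hL : HasCover μ ρ δ L)
    (b : Fin 4 → G) (σ : G) (T : ℕ) (hT : 2 * (L + 1) ^ (4 * K) < T)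
    (hF : ∀ j, ∀ i < T, 16 * (F.filter fun g => b j * σ ^ i * g ∉ F).card ≤ F.card) :
    ∃ m, 1 ≤ m ∧ ∀ j, D μ ρ (b j) (b j * σ ^ m) ≤ ENNReal.ofReal (66 * δ) := by
  obtain ⟨c, w, hw, hc⟩ := exists_classes μ hρ F hK hL
  set θ : ℝ≥0∞ := ENNReal.ofReal (32 * δ) with hθ
  set Bad : Finset G := F.filter fun g => ¬ (w g ≤ θ) with hBad
  have hBadc : 16 * Bad.card ≤ F.card := by
    have h1 : Bad.card * θ ≤ ∑ g ∈ F, w g := by
      calc (Bad.card : ℝ≥0∞) * θ = ∑ g ∈ Bad, θ := by rw [Finset.sum_const, nsmul_eq_mul]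
        _ ≤ ∑ g ∈ Bad, w g := Finset.sum_le_sum fun g hg => by
            have := (Finset.mem_filter.1 hg).2
            exact (not_le.1 this).le
        _ ≤ ∑ g ∈ F, w g := Finset.sum_le_sum_of_subset (Finset.filter_subset _ _)
    have h2 : (Bad.card : ℝ≥0∞) * θ ≤ 2 * ENNReal.ofReal δ * F.card := h1.trans hw
    have h3 : ENNReal.ofReal (Bad.card * (32 * δ)) ≤ ENNReal.ofReal (2 * δ * F.card) := by
      have e1 : ENNReal.ofReal (Bad.card * (32 * δ)) = Bad.card * θ := by
        rw [hθ, ENNReal.ofReal_mul (by positivity), ENNReal.ofReal_natCast]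
      have e2 : ENNReal.ofReal (2 * δ * F.card) = 2 * ENNReal.ofReal δ * F.card := by
        rw [ENNReal.ofReal_mul (by positivity), ENNReal.ofReal_mul (by norm_num),
          ENNReal.ofReal_natCast]
        simp
      rw [e1, e2]; exact h2
    rw [ENNReal.ofReal_le_ofReal_iff (by positivity)] at h3
    have h4 : (16 * (Bad.card : ℝ)) ≤ F.card := by nlinarith
    exact_mod_cast h4
  set P : Fin 4 → ℕ → G → Prop := fun j i g => ¬ (b j * σ ^ i * g ∈ F ∧ w (b j * σ ^ i * g) ≤ θ)
    with hP
  have hcount : ∀ j, ∀ i < T, 8 * (F.filter fun g => P j i g).card ≤ F.card := by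
    intro j i hi
    have h1 : (F.filter fun g => P j i g) ⊆ (F.filter fun g => b j * σ ^ i * g ∉ F) ∪
        (F.filter fun g => b j * σ ^ i * g ∈ Bad) := by
      intro g hg
      rw [Finset.mem_filter] at hg
      rw [Finset.mem_union, Finset.mem_filter, Finset.mem_filter]
      by_cases h2 : b j * σ ^ i * g ∈ F
      · right
        refine ⟨hg.1, ?_⟩
        rw [hBad, Finset.mem_filter]
        exact ⟨h2, fun h3 => hg.2 ⟨h2, h3⟩⟩
      · left; exact ⟨hg.1, h2⟩
    have h2 : (F.filter fun g => b j * σ ^ i * g ∈ Bad).card ≤ Bad.card := by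
      apply Finset.card_le_card_of_injOn (fun g => b j * σ ^ i * g)
      · intro g hg
        exact (Finset.mem_filter.1 hg).2
      · intro g _ h _ hgh
        exact mul_left_cancel hgh
    have h3 := (Finset.card_le_card h1).trans (Finset.card_union_le _ _)
    have h4 := hF j i hi
    omega
  -- choose g
  obtain ⟨g, hg, hgb⟩ : ∃ g ∈ F,
      2 * (((Finset.univ : Finset (Fin 4)) ×ˢ Finset.range T).filter
        fun q => P q.1 q.2 g).card ≤ T := by
    simp only [Finset.card_filter]
    apply Finset.exists_le_of_sum_le hFne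
    rw [← Finset.mul_sum, Finset.sum_comm]
    have h1 : ∀ q ∈ (Finset.univ : Finset (Fin 4)) ×ˢ Finset.range T,
        8 * ∑ g ∈ F, (if P q.1 q.2 g then 1 else 0) ≤ F.card := by
      intro q hq
      rw [Finset.mem_product, Finset.mem_range] at hq
      have := hcount q.1 q.2 hq.2
      rwa [Finset.card_filter] at this
    have h2 := Finset.sum_le_sum h1
    rw [← Finset.mul_sum, Finset.sum_const, smul_eq_mul, Finset.card_product, Finset.card_range,
      Finset.card_univ, Fintype.card_fin] at h2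
    rw [Finset.sum_const, smul_eq_mul]
    nlinarith
  set S : Finset ℕ := (Finset.range T).filter fun i => ∀ j, ¬ P j i g with hS
  have hScard : T ≤ 2 * S.card := by
    have h1 : (Finset.range T) ⊆ S ∪ (((Finset.univ : Finset (Fin 4)) ×ˢ Finset.range T).filter
        fun q => P q.1 q.2 g).image Prod.snd := by
      intro i hi
      rw [Finset.mem_union]
      by_cases h2 : ∀ j, ¬ P j i g
      · left; rw [hS, Finset.mem_filter]; exact ⟨hi, h2⟩
      · right
        simp only [not_forall, not_not] at h2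
        obtain ⟨j, hj⟩ := h2
        rw [Finset.mem_image]
        exact ⟨(j, i), by rw [Finset.mem_filter, Finset.mem_product]; exact
          ⟨⟨Finset.mem_univ _, hi⟩, hj⟩, rfl⟩
    have h2 := (Finset.card_le_card h1).trans ((Finset.card_union_le _ _).trans
      (Nat.add_le_add_left Finset.card_image_le _))
    rw [Finset.card_range] at h2
    omega
  obtain ⟨i, hi, i', hi', hne, heq⟩ := Finset.exists_ne_map_eq_of_card_lt_of_maps_to
    (s := S) (t := (Finset.univ : Finset (Fin 4 → Fin K → Option (Fin L))))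
    (f := fun i j => c (b j * σ ^ i * g)) (by
      have h1 : (Finset.univ : Finset (Fin 4 → Fin K → Option (Fin L))).card =
          (L + 1) ^ (4 * K) := by
        rw [Finset.card_univ]
        simp only [Fintype.card_pi, Fintype.card_option, Fintype.card_fin, Finset.prod_const,
          Finset.card_univ]
        rw [← pow_mul, mul_comm]
      rw [h1]; omega) (fun _ _ => Finset.mem_univ _)
  have key : ∀ i ∈ S, ∀ i' ∈ S, i < i' →
      (fun j => c (b j * σ ^ i * g)) = (fun j => c (b j * σ ^ i' * g)) →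
      ∃ m, 1 ≤ m ∧ ∀ j, D μ ρ (b j) (b j * σ ^ m) ≤ ENNReal.ofReal (66 * δ) := by
    intro i hi i' hi' hlt heq
    refine ⟨i' - i, by omega, fun j => ?_⟩
    have h1 := hc _ _ (congrFun heq j)
    have h2 : w (b j * σ ^ i * g) ≤ θ := by
      have := (Finset.mem_filter.1 hi).2 j
      simp only [hP, not_not] at this
      exact this.2
    have h3 : w (b j * σ ^ i' * g) ≤ θ := by
      have := (Finset.mem_filter.1 hi').2 j
      simp only [hP, not_not] at this
      exact this.2
    have h4 : b j * σ ^ i * g = b j * (σ ^ i * g) := mul_assoc _ _ _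
    have h5 : b j * σ ^ i' * g = b j * σ ^ (i' - i) * (σ ^ i * g) := by
      have : σ ^ i' = σ ^ (i' - i) * σ ^ i := by rw [← pow_add]; congr 1; omega
      rw [this]; group
    rw [h5, h4, D_right hρ] at h1
    refine h1.trans ?_
    rw [h5] at h3
    rw [h4] at h2
    calc 2 * ENNReal.ofReal δ + w (b j * (σ ^ i * g)) + w (b j * σ ^ (i' - i) * (σ ^ i * g)) ≤
        2 * ENNReal.ofReal δ + θ + θ := by gcongr
      _ = ENNReal.ofReal (66 * δ) := by
          rw [hθ, ENNReal.ofReal_mul (by norm_num), ENNReal.ofReal_mul (by norm_num)]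
          have e1 : ENNReal.ofReal 32 = 32 := by simp
          have e2 : ENNReal.ofReal 66 = 66 := by simp
          rw [e1, e2]; ring
  rcases lt_or_gt_of_ne hne with h | h
  · exact key i hi i' hi' h heq
  · exact key i' hi' i hi h heq.symm

/-- The commutator estimate. -/
theorem comm_estimate {μ : Measure X} [SMulInvariantMeasure G X μ]
    {ρ : X → X → ℝ} (hρ : IsSemimetric ρ) {a b s : G} {η : ℝ≥0∞}
    (hcomm : s⁻¹ * a * s * b = b * (s⁻¹ * a * s))
    (h1 : D μ ρ 1 (1 * s) ≤ η) (ha : D μ ρ a (a * s) ≤ η) (hb : D μ ρ b (b * s) ≤ η)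
    (hba : D μ ρ (b * a) (b * a * s) ≤ η) :
    D μ ρ 1 (a * b * a⁻¹ * b⁻¹) ≤ 4 * η := by
  set a' := s⁻¹ * a * s with ha'
  have e1 : D μ ρ (a * b) (a' * b) ≤ η + η := by
    rw [D_right hρ]
    calc D μ ρ a a' ≤ D μ ρ a (a * s) + D μ ρ (a * s) a' := D_triangle hρ _ _ _
      _ ≤ η + η := by
          gcongr
          have : D μ ρ (a * s) a' = D μ ρ (1 * s) 1 := by
            rw [← D_right hρ (1 * s) 1 a', one_mul, one_mul]
            congr 1
            rw [ha']; group
          rw [this, D_symm hρ]; exact h1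
  have e2 : D μ ρ (a' * b) (b * a) ≤ η + η := by
    rw [hcomm]
    calc D μ ρ (b * a') (b * a) ≤ D μ ρ (b * a') (b * s * a') + D μ ρ (b * s * a') (b * a) :=
          D_triangle hρ _ _ _
      _ ≤ η + η := by
          gcongr
          · rw [D_right hρ]; exact hb
          · have : b * s * a' = b * a * s := by rw [ha']; group
            rw [this, D_symm hρ]; exact hba
  have e3 : D μ ρ 1 (a * b * a⁻¹ * b⁻¹) = D μ ρ (b * a) (a * b) := by
    rw [← D_right hρ 1 (a * b * a⁻¹ * b⁻¹) (b * a)]
    congr 1 <;> group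
  rw [e3, D_symm hρ]
  calc D μ ρ (a * b) (b * a) ≤ D μ ρ (a * b) (a' * b) + D μ ρ (a' * b) (b * a) :=
        D_triangle hρ _ _ _
    _ ≤ (η + η) + (η + η) := add_le_add e1 e2
    _ = 4 * η := by ring

end Q71.SE
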