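import Pool.Agent.Q71.SE.Defs

/-!
# Bi-invariant totally bounded pseudometrics on a group
-/

namespace Q71.SE

open Filter Topology Set

variable {G : Type*} [Group G]

/-- A left-invariant totally bounded pseudometric, bounded by `1`. -/
structure IsLeft (D : G → G → ℝ) : Prop where
  self : ∀ g, D g g = 0
  nonneg : ∀ g h, 0 ≤ D g h
  le_one : ∀ g h, D g h ≤ 1
  symm : ∀ g h, D g h = D h g
  tri : ∀ g h k, D g k ≤ D g h + D h k
  left : ∀ t g h, D (t * g) (t * h) = D g h
  tb : ∀ ε : ℝ, 0 < ε → ∃ (κ : Type) (_ : Finite κ) (c : G → κ), ∀ g h, c g = c h → D g h ≤ ε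

/-- A bi-invariant totally bounded pseudometric, bounded by `1`. -/
structure IsBi (D : G → G → ℝ) : Prop extends IsLeft D where
  right : ∀ t g h, D (g * t) (h * t) = D g h

theorem IsLeft.bdd {D : G → G → ℝ} (hD : IsLeft D) (g h : G) :
    BddAbove (range fun t => D (g * t) (h * t)) :=
  ⟨1, by rintro _ ⟨t, rfl⟩; exact hD.le_one _ _⟩

theorem IsLeft.le_sup {D : G → G → ℝ} (hD : IsLeft D) (g h t : G) :
    D (g * t) (h * t) ≤ ⨆ t, D (g * t) (h * t) :=
  le_ciSup (hD.bdd g h) t

/-- The supremum over right translates is bi-invariant and still totally bounded. -/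
theorem IsLeft.sup {D : G → G → ℝ} (hD : IsLeft D) : IsBi (fun g h => ⨆ t, D (g * t) (h * t)) where
  self g := by simp [hD.self]
  nonneg g h := (hD.nonneg _ _).trans (hD.le_sup g h 1)
  le_one g h := ciSup_le fun t => hD.le_one _ _
  symm g h := by simp_rw [hD.symm]
  tri g h k := ciSup_le fun t => (hD.tri _ (h * t) _).trans
    (add_le_add (hD.le_sup _ _ t) (hD.le_sup _ _ t))
  left t g h := by
    simp_rw [mul_assoc, hD.left]
  right s g h := by
    simp_rw [mul_assoc]
    exact (Equiv.mulLeft s).iSup_congr (fun t => rfl)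
  tb ε hε := by
    obtain ⟨κ, hκ, c, hc⟩ := hD.tb (ε / 3) (by positivity)
    -- representatives
    let rep : range c → G := fun i => i.2.choose
    have hrep : ∀ i, c (rep i) = i := fun i => i.2.choose_spec
    refine ⟨range c → κ, inferInstance, fun h i => c (h * rep i), fun g h hgh => ?_⟩
    refine ciSup_le fun t => ?_
    set i : range c := ⟨c t, mem_range_self t⟩ with hi
    have h1 : c t = c (rep i) := (hrep i).symm
    have h2 : D (g * t) (g * rep i) ≤ ε / 3 := by rw [hD.left]; exact hc _ _ h1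
    have h3 : D (h * rep i) (h * t) ≤ ε / 3 := by rw [hD.left]; exact hc _ _ h1.symm
    have h4 : D (g * rep i) (h * rep i) ≤ ε / 3 := hc _ _ (congrFun hgh i)
    linarith [hD.tri (g * t) (g * rep i) (h * t), hD.tri (g * rep i) (h * rep i) (h * t)]

/-- elements invisible to all bi-invariant totally bounded pseudometrics -/
def InKer (g : G) : Prop := ∀ D : G → G → ℝ, IsBi D → D g 1 = 0

theorem InKer.conj {g : G} (hg : InKer g) (t : G) : InKer (t * g * t⁻¹) := by
  intro D hD
  have h1 : D (t * g * t⁻¹) 1 = D (t * g) (t * 1) := by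
    rw [← hD.right t (t * g * t⁻¹) 1]
    congr 1 <;> group
  rw [h1, hD.left]
  exact hg D hD

theorem IsBi.zero : IsBi (fun _ _ : G => (0 : ℝ)) where
  self _ := rfl
  nonneg _ _ := le_rfl
  le_one _ _ := zero_le_one
  symm _ _ := rfl
  tri _ _ _ := by simp
  left _ _ _ := rfl
  tb ε hε := ⟨Unit, inferInstance, fun _ => (), fun _ _ _ => hε.le⟩
  right _ _ _ := rfl

theorem min_tri {a b c e : ℝ} (hb : 0 ≤ b) (hc : 0 ≤ c) (he : 0 ≤ e) (h : a ≤ b + c) :
    min a e ≤ min b e + min c e := by
  rcases le_total b e with h1 | h1 <;> rcases le_total c e with h2 | h2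
  · rw [min_eq_left h1, min_eq_left h2]; exact (min_le_left _ _).trans h
  · rw [min_eq_left h1, min_eq_right h2]; exact (min_le_right _ _).trans (by linarith)
  · rw [min_eq_right h1, min_eq_left h2]; exact (min_le_right _ _).trans (by linarith)
  · rw [min_eq_right h1, min_eq_right h2]; exact (min_le_right _ _).trans (by linarith)

/-- A countable supremum of bi-invariant totally bounded pseudometrics. -/
theorem exists_comb {D : ℕ → G → G → ℝ} (hD : ∀ j, IsBi (D j)) :
    ∃ D' : G → G → ℝ, IsBi D' ∧ ∀ j g, 0 < D j g 1 → 0 < D' g 1 := by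
  have hpos : ∀ j : ℕ, (0 : ℝ) < 1 / (j + 1) := fun j => by positivity
  have hle1 : ∀ j : ℕ, (1 : ℝ) / (j + 1) ≤ 1 := fun j => by
    rw [div_le_one (by positivity)]
    have : (0 : ℝ) ≤ j := j.cast_nonneg
    linarith
  have hbdd : ∀ g h, BddAbove (range fun j : ℕ => min (D j g h) (1 / ((j : ℝ) + 1))) := fun g h =>
    ⟨1, by rintro _ ⟨j, rfl⟩; exact (min_le_right _ _).trans (hle1 j)⟩
  have hle : ∀ g h (j : ℕ), min (D j g h) (1 / ((j : ℝ) + 1)) ≤
      ⨆ j : ℕ, min (D j g h) (1 / ((j : ℝ) + 1)) := fun g h j => le_ciSup (hbdd g h) j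
  refine ⟨fun g h => ⨆ j : ℕ, min (D j g h) (1 / ((j : ℝ) + 1)), ?_, ?_⟩
  · exact
    { self := fun g => by
        have : ∀ j : ℕ, min (D j g g) (1 / ((j : ℝ) + 1)) = 0 := fun j => by
          rw [(hD j).self, min_eq_left (hpos j).le]
        simp_rw [this]
        exact ciSup_const
      nonneg := fun g h => (le_min ((hD 0).nonneg _ _) (hpos 0).le).trans
        (by exact_mod_cast hle g h 0)
      le_one := fun g h => ciSup_le fun j => (min_le_right _ _).trans (hle1 j)
      symm := fun g h => by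
        have : ∀ j : ℕ, D j g h = D j h g := fun j => (hD j).symm g h
        simp_rw [this]
      tri := fun g h k => ciSup_le fun j =>
        (min_tri ((hD j).nonneg _ _) ((hD j).nonneg _ _) (hpos j).le ((hD j).tri g h k)).trans
          (add_le_add (hle g h j) (hle h k j))
      left := fun t g h => by
        have : ∀ j : ℕ, D j (t * g) (t * h) = D j g h := fun j => (hD j).left t g h
        simp_rw [this]
      right := fun t g h => by
        have : ∀ j : ℕ, D j (g * t) (h * t) = D j g h := fun j => (hD j).right t g h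
        simp_rw [this]
      tb := fun ε hε => by
        obtain ⟨J, hJ⟩ := exists_nat_one_div_lt hε
        have h1 := fun j : Fin J => (hD j).tb ε hε
        choose κ hκ c hc using h1
        refine ⟨∀ j, κ j, inferInstance, fun g j => c j g, fun g h hgh => ?_⟩
        refine ciSup_le fun j => ?_
        by_cases hj : j < J
        · exact (min_le_left _ _).trans (hc ⟨j, hj⟩ g h (congrFun hgh ⟨j, hj⟩))
        · refine (min_le_right _ _).trans (le_trans ?_ hJ.le)
          apply one_div_le_one_div_of_le (by positivity)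
          have : (J : ℝ) ≤ j := by exact_mod_cast not_lt.1 hj
          linarith }
  · intro j g hg
    exact (lt_min hg (hpos j)).trans_le (hle g 1 j)

theorem exists_faithful [Countable G] (h : ∀ g : G, g ≠ 1 → ¬ InKer g) :
    ∃ D : G → G → ℝ, IsBi D ∧ ∀ g, g ≠ 1 → 0 < D g 1 := by
  obtain ⟨e, he⟩ := exists_surjective_nat G
  have h1 : ∀ j : ℕ, ∃ D : G → G → ℝ, IsBi D ∧ (e j ≠ 1 → 0 < D (e j) 1) := by
    intro j
    by_cases hj : e j = 1
    · exact ⟨_, IsBi.zero, fun h => absurd hj h⟩
    · have := h _ hj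
      unfold InKer at this
      push Not at this
      obtain ⟨D, hD, hD2⟩ := this
      exact ⟨D, hD, fun _ => lt_of_le_of_ne (hD.nonneg _ _) (Ne.symm hD2)⟩
  choose D hD hD2 using h1
  obtain ⟨D', hD', hD'2⟩ := exists_comb hD
  refine ⟨D', hD', fun g hg => ?_⟩
  obtain ⟨j, rfl⟩ := he g
  exact hD'2 j _ (hD2 j hg)

end Q71.SE
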